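import Pool.Agent.Helper58.FU.Count
import Pool.Graph.R_seed8.Y568.FL.Geo

/-!
# Projections of the regular simplex
-/

set_option autoImplicit false
set_option linter.unusedSectionVars false
set_option linter.unusedSimpArgs false
set_option linter.unusedVariables false

namespace Pool.Agent.Helper58.FU

open Finset Matrix MeasureTheory Pool.Agent.Helper7.Simplex Pool.Agent.Y568.FL
open scoped ENNReal

variable {V : Type*} [NormedAddCommGroup V] [InnerProductSpace ℝ V] [FiniteDimensional ℝ V]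
  [MeasurableSpace V] [BorelSpace V]

theorem proj_le' {n k : ℕ} (hkn : k ≤ n) (hV : Module.finrank ℝ V = n) (v : Fin (n + 1) → V)
    (hv : ∀ i j, i ≠ j → dist (v i) (v j) = √2)
    (E : Submodule ℝ V) (hE : Module.finrank ℝ E = n - k) :
    J7762.projVol (n - k) E (convexHull ℝ (Set.range v)) ≤
      ENNReal.ofReal (√(((n : ℝ) + 1) / (k + 1)) ^ (k + 1) / (n - k).factorial) := by
  obtain ⟨L, h1, h2, h3, -, -⟩ := coord v (J7761.R_frame hV v hv) E hE
  rw [h1]
  have h := hull_le' (m := n - k) (K := k + 1) (by omega) (Nat.succ_pos k) h3 h2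
  have e1 : (((n + 1 : ℕ) : ℝ)) = (n : ℝ) + 1 := by push_cast; ring
  have e2 : (((k + 1 : ℕ) : ℝ)) = (k : ℝ) + 1 := by push_cast; ring
  rw [e1, e2] at h
  exact h

theorem proj_star' {n k : ℕ} (hkn : k ≤ n) (hV : Module.finrank ℝ V = n) (v : Fin (n + 1) → V)
    (hv : ∀ i j, i ≠ j → dist (v i) (v j) = √2)
    (p : Fin (n + 1) → Fin (k + 1)) (hp : Function.Surjective p) :
    Module.finrank ℝ (Submodule.span ℝ {x | ∃ i j, p i = p j ∧ x = v i - v j}) = n - k ∧
    J7762.projVol (n - k) (Submodule.span ℝ {x | ∃ i j, p i = p j ∧ x = v i - v j})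
      (convexHull ℝ (Set.range v)) =
      ENNReal.ofReal (√(∏ a, (bs p a : ℝ)) / (n - k).factorial) := by
  classical
  have hf := J7761.R_frame hV v hv
  have hF := J7764.R_finrank hV v hv hf p hp
  set E : Submodule ℝ V := Submodule.span ℝ {x | ∃ i j, p i = p j ∧ x = v i - v j} with hEdef
  have hE : Module.finrank ℝ E = n - k := by
    have := Submodule.finrank_add_finrank_orthogonal E
    omega
  refine ⟨hE, ?_⟩
  obtain ⟨L, h1, h2, h3, h4, h5⟩ := coord v hf E hE
  obtain ⟨q, g1, g2⟩ := gram v hv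
  rw [h1]
  set c : V := ((n : ℝ) + 1)⁻¹ • ∑ j, v j with hc
  set s : Fin (k + 1) → V := fun a => ∑ j ∈ univ.filter (fun j => p j = a), (v j - c) with hs
  have hbpos : ∀ a, 0 < bs p a := by
    intro a
    obtain ⟨i, hi⟩ := hp a
    exact Finset.card_pos.mpr ⟨i, by simp [hi]⟩
  -- inner products with block sums
  have hsin : ∀ r a, inner ℝ (s a) (v r - c) = (bs p a : ℝ) * (q - 1) +
      if p r = a then 1 else 0 := by
    intro r a
    rw [hs, sum_inner]
    have e1 : ∀ j ∈ univ.filter (fun j => p j = a), inner ℝ (v j - c) (v r - c) =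
        (q - 1) + if j = r then 1 else 0 := by
      intro j _
      by_cases hj : j = r
      · subst hj
        rw [g1, if_pos rfl]; ring
      · rw [g2 _ _ hj, if_neg hj]; ring
    rw [Finset.sum_congr rfl e1, Finset.sum_add_distrib, Finset.sum_const, nsmul_eq_mul,
      Finset.sum_ite_eq']
    congr 1
    simp
  have hsE : ∀ a, s a ∈ Eᗮ := by
    intro a
    rw [Submodule.mem_orthogonal']
    intro w hw
    induction hw using Submodule.span_induction with
    | mem w hw =>
      obtain ⟨r, t, hrt, rfl⟩ := hw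
      have e1 : v r - v t = (v r - c) - (v t - c) := by abel
      rw [e1, inner_sub_right, hsin, hsin, hrt, sub_self]
    | zero => exact inner_zero_right _
    | add a b _ _ iha ihb => rw [inner_add_right, iha, ihb, add_zero]
    | smul a b _ ihb => rw [inner_smul_right, ihb, mul_zero]
  have hblk : Blk (fun i => L (v i - c)) p := by
    refine ⟨by omega, hp, ?_, ?_⟩
    · intro i j
      set μ : ℝ := ((bs p (p i) : ℕ) : ℝ)⁻¹ with hμ
      have hμ0 : ((bs p (p i) : ℕ) : ℝ) ≠ 0 := by
        have := hbpos (p i)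
        positivity
      have hμb : μ * ((bs p (p i) : ℕ) : ℝ) = 1 := by
        rw [hμ]; exact inv_mul_cancel₀ hμ0
      set w : V := (v i - c) - μ • s (p i) with hw
      have hwE : w ∈ E := by
        have e1 : w = μ • ∑ t ∈ univ.filter (fun t => p t = p i), (v i - v t) := by
          have e2 : ∑ t ∈ univ.filter (fun t => p t = p i), (v i - v t) =
              ((bs p (p i) : ℕ) : ℝ) • (v i - c) - s (p i) := by
            rw [hs]
            have e3 : ∀ t, v i - v t = (v i - c) - (v t - c) := fun t => by abel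
            simp only [e3]
            rw [Finset.sum_sub_distrib, Finset.sum_const, ← Nat.cast_smul_eq_nsmul ℝ]
            rfl
          rw [e2, smul_sub, smul_smul, hμ, inv_mul_cancel₀ hμ0, one_smul]
        rw [e1]
        refine E.smul_mem _ (E.sum_mem fun t ht => Submodule.subset_span ⟨i, t, ?_, rfl⟩)
        simpa using (Finset.mem_filter.mp ht).2.symm
      have hLw : L w = L (v i - c) := by
        rw [hw, map_sub, map_smul, h4 _ (hsE _), smul_zero, sub_zero]
      show L (v i - c) ⬝ᵥ L (v j - c) = _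
      rw [← hLw, h5 w _ hwE, hw, inner_sub_left, inner_smul_left, hsin]
      simp only [conj_trivial]
      by_cases hij : i = j
      · subst hij
        rw [g1, if_pos rfl, if_pos rfl, if_pos rfl]
        linear_combination (-(q - 1)) * hμb
      · rw [g2 _ _ hij, if_neg hij]
        by_cases hpij : p i = p j
        · rw [if_pos hpij, if_pos hpij.symm]
          linear_combination (-(q - 1)) * hμb
        · rw [if_neg hpij, if_neg (fun h => hpij h.symm)]
          linear_combination (-(q - 1)) * hμb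
    · intro a
      show ∑ j ∈ univ.filter (fun j => p j = a), L (v j - c) = 0
      rw [← map_sum]
      exact h4 _ (hsE a)
  exact hblk.vol h3 (Nat.succ_pos n) h2

/-- comparison of `(N / K) ^ (K / 2)` with the balanced product -/
lemma log_gap {ℓ θ : ℝ} (hℓ : 0 < ℓ) (h0 : 0 ≤ θ) (h1 : θ ≤ 1) :
    Real.log (ℓ + θ) ≤ (1 - θ) * Real.log ℓ + θ * Real.log (ℓ + 1) +
      θ * (1 - θ) / (2 * ℓ ^ 2) := by
  -- `log t + t ^ 2 / (2 ℓ ^ 2)` is convex on `[ℓ, ∞)`
  have hconv : ConvexOn ℝ (Set.Ici ℓ) (fun t => Real.log t + t ^ 2 / (2 * ℓ ^ 2)) := by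
    apply MonotoneOn.convexOn_of_deriv (convex_Ici ℓ)
    · refine ContinuousOn.add (Real.continuousOn_log.mono ?_) (by fun_prop)
      intro t ht
      have : ℓ ≤ t := ht
      simp only [Set.mem_compl_iff, Set.mem_singleton_iff]
      linarith
    · intro t ht
      rw [interior_Ici, Set.mem_Ioi] at ht
      have ht0 : t ≠ 0 := by linarith
      exact ((Real.hasDerivAt_log ht0).add ((hasDerivAt_pow 2 t).div_const _)).differentiableAt.differentiableWithinAt
    · intro s hs t ht hst
      rw [interior_Ici, Set.mem_Ioi] at hs ht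
      have hd : ∀ r : ℝ, ℓ < r → deriv (fun t => Real.log t + t ^ 2 / (2 * ℓ ^ 2)) r =
          r⁻¹ + r / ℓ ^ 2 := by
        intro r hr
        have hr0 : r ≠ 0 := by linarith
        have h := ((Real.hasDerivAt_log hr0).add ((hasDerivAt_pow 2 r).div_const (2 * ℓ ^ 2))).deriv
        have h' : deriv (fun t => Real.log t + t ^ 2 / (2 * ℓ ^ 2)) r =
          r⁻¹ + ((2 : ℕ) : ℝ) * r ^ (2 - 1) / (2 * ℓ ^ 2) := h
        rw [h']
        field_simp
        norm_num
        ring
      rw [hd s hs, hd t ht]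
      have hs0 : 0 < s := by linarith
      have ht0 : 0 < t := by linarith
      have e : t⁻¹ + t / ℓ ^ 2 - (s⁻¹ + s / ℓ ^ 2) = (t - s) * (s * t - ℓ ^ 2) / (s * t * ℓ ^ 2) := by
        field_simp
        ring
      have h2 : ℓ ^ 2 ≤ s * t := by nlinarith
      have h3 : 0 ≤ (t - s) * (s * t - ℓ ^ 2) / (s * t * ℓ ^ 2) :=
        div_nonneg (mul_nonneg (by linarith) (by linarith)) (by positivity)
      linarith
  have h2 := hconv.2 (Set.mem_Ici.mpr le_rfl) (Set.mem_Ici.mpr (by linarith : ℓ ≤ ℓ + 1))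
    (sub_nonneg.mpr h1) h0 (by ring)
  simp only [smul_eq_mul] at h2
  have e1 : (1 - θ) * ℓ + θ * (ℓ + 1) = ℓ + θ := by ring
  rw [e1] at h2
  have e2 : (1 - θ) * (Real.log ℓ + ℓ ^ 2 / (2 * ℓ ^ 2)) +
      θ * (Real.log (ℓ + 1) + (ℓ + 1) ^ 2 / (2 * ℓ ^ 2)) - (ℓ + θ) ^ 2 / (2 * ℓ ^ 2) =
      (1 - θ) * Real.log ℓ + θ * Real.log (ℓ + 1) + θ * (1 - θ) / (2 * ℓ ^ 2) := by
    field_simp
    ring
  linarith

/-- For a balanced partition the product of the block sizes is `ℓ ^ (K - r) * (ℓ + 1) ^ r`. -/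
lemma balanced_log {n k : ℕ} (hkn : k ≤ n) (p : Fin (n + 1) → Fin (k + 1))
    (hp : ∀ a, bs p a = (n + 1) / (k + 1) ∨ bs p a = (n + 1) / (k + 1) + 1) :
    √(((n : ℝ) + 1) / (k + 1)) ^ (k + 1) ≤
      Real.exp ((((n + 1) % (k + 1) : ℕ) : ℝ) * ((k + 1 : ℝ) - ((n + 1) % (k + 1) : ℕ)) /
        (4 * (k + 1) * (((n + 1) / (k + 1) : ℕ) : ℝ) ^ 2)) * √(∏ a, (bs p a : ℝ)) := by
  classical
  set ℓ : ℕ := (n + 1) / (k + 1) with hℓ
  set r : ℕ := (n + 1) % (k + 1) with hr
  have hℓ1 : 1 ≤ ℓ := Nat.div_pos (by omega) (by omega)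
  have hdm : (k + 1) * ℓ + r = n + 1 := Nat.div_add_mod (n + 1) (k + 1)
  have hr1 : r < k + 1 := Nat.mod_lt _ (by omega)
  have hℓ0 : (0:ℝ) < ℓ := by exact_mod_cast hℓ1
  have hk0 : (0:ℝ) < (k:ℝ) + 1 := by positivity
  have hsum : ∑ a, bs p a = n + 1 := by
    have := Finset.card_eq_sum_card_fiberwise (f := p) (s := univ) (t := univ)
      (fun i _ => Finset.mem_coe.mpr (Finset.mem_univ _))
    unfold bs
    rw [← this, Finset.card_univ, Fintype.card_fin]
  -- the number of large blocks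
  have hcard : (univ.filter fun a => bs p a = ℓ + 1).card = r := by
    have h1 : ∑ a, bs p a = ∑ a : Fin (k + 1), (ℓ + if bs p a = ℓ + 1 then 1 else 0) := by
      refine Finset.sum_congr rfl fun a _ => ?_
      rcases hp a with h | h <;> rw [h] <;> simp
    rw [hsum, Finset.sum_add_distrib, Finset.sum_const, Finset.card_univ, Fintype.card_fin,
      smul_eq_mul, ← Finset.card_filter] at h1
    omega
  have hlogprod : Real.log (∏ a, (bs p a : ℝ)) =
      ((k:ℝ) + 1 - r) * Real.log ℓ + r * Real.log (ℓ + 1) := by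
    rw [Real.log_prod (fun a _ => by
      rcases hp a with h | h <;> rw [h] <;> positivity)]
    have h1 : ∀ a : Fin (k + 1), Real.log (bs p a : ℝ) = Real.log ℓ +
        (if bs p a = ℓ + 1 then (Real.log (ℓ + 1) - Real.log ℓ) else 0) := by
      intro a
      rcases hp a with h | h
      · rw [h]; simp
      · rw [h, if_pos rfl]; push_cast; ring
    rw [Finset.sum_congr rfl fun a _ => h1 a, Finset.sum_add_distrib, Finset.sum_const,
      Finset.card_univ, Fintype.card_fin, nsmul_eq_mul, ← Finset.sum_filter, Finset.sum_const,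
      hcard, nsmul_eq_mul]
    push_cast
    ring
  have hP : 0 < ∏ a, (bs p a : ℝ) := Finset.prod_pos fun a _ => by
    rcases hp a with h | h <;> rw [h] <;> positivity
  set θ : ℝ := r / ((k:ℝ) + 1) with hθ
  have hθ0 : 0 ≤ θ := by positivity
  have hθ1 : θ ≤ 1 := by
    rw [hθ, div_le_one hk0]
    have : (r:ℝ) < (k:ℝ) + 1 := by exact_mod_cast hr1
    exact this.le
  have hratio : ((n : ℝ) + 1) / (k + 1) = ℓ + θ := by
    have h1 : ((n:ℝ) + 1) = (k + 1) * ℓ + r := by
      have : ((n + 1 : ℕ) : ℝ) = (((k + 1) * ℓ + r : ℕ) : ℝ) := by rw [hdm]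
      push_cast at this
      linarith
    rw [h1, hθ]
    field_simp
  have hgap := log_gap hℓ0 hθ0 hθ1
  have hq : 0 < ((n : ℝ) + 1) / (k + 1) := by positivity
  have e1 : √(((n : ℝ) + 1) / (k + 1)) ^ (k + 1) =
      Real.exp (((k:ℝ) + 1) / 2 * Real.log (ℓ + θ)) := by
    rw [← Real.exp_log (Real.sqrt_pos.mpr hq), ← Real.exp_nat_mul, Real.log_sqrt hq.le, hratio]
    congr 1
    push_cast
    ring
  have e2 : √(∏ a, (bs p a : ℝ)) =
      Real.exp ((((k:ℝ) + 1 - r) * Real.log ℓ + r * Real.log (ℓ + 1)) / 2) := by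
    rw [← hlogprod, ← Real.log_sqrt hP.le, Real.exp_log (Real.sqrt_pos.mpr hP)]
  rw [e1, e2, ← Real.exp_add]
  apply Real.exp_le_exp.mpr
  have h3 := mul_le_mul_of_nonneg_left hgap (by positivity : 0 ≤ ((k:ℝ) + 1) / 2)
  refine h3.trans (le_of_eq ?_)
  rw [hθ]
  field_simp
  ring

end Pool.Agent.Helper58.FU
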