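import Pool.Graph.R_seed8.Y568.FL.Vol

/-!
# The complementary frame and the decomposition of Lebesgue measure

`x : Fin N → Fin m → ℝ` is a Parseval frame. We complete it to an orthogonal matrix by a frame
`u : Fin N → Fin K → ℝ`, `N = m + K`, and decompose Lebesgue measure on `ℝ^N` along the cells
`{(u_j ⬝ v)_j + λ : v ∈ ℝ^K, λ ∈ ℝ_+^I}` of the feasible bases `I`.
-/

set_option autoImplicit false
set_option linter.unusedSectionVars false
set_option linter.unusedSimpArgs false
set_option linter.unusedVariables false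

namespace Pool.Agent.Helper58.FU

open Finset Matrix MeasureTheory Pool.Agent.Helper484 Pool.Agent.Y568.FL
open scoped ENNReal

variable {m K N : ℕ}

/-- `u` completes `x` to an orthogonal matrix -/
structure Compl (x : Fin N → Fin m → ℝ) (u : Fin N → Fin K → ℝ) : Prop where
  row : ∀ i j, x i ⬝ᵥ x j + u i ⬝ᵥ u j = if i = j then 1 else 0
  col : ∀ a b, ∑ j, u j a * u j b = if a = b then 1 else 0
  mix : ∀ a b, ∑ j, x j a * u j b = 0
  int : ∀ G : (Fin N → ℝ) → ℝ≥0∞, Measurable G →
    ∫⁻ c, G c = ∫⁻ y : Fin m → ℝ, ∫⁻ v : Fin K → ℝ, G (fun j => x j ⬝ᵥ y + u j ⬝ᵥ v)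

lemma Fr_orth {x : Fin N → Fin m → ℝ} (hx : Fr x) (a b : Fin m) :
    ∑ j, x j a * x j b = if a = b then 1 else 0 := by
  have h1 := hx (Pi.single a 1 + Pi.single b 1)
  have h2 := hx (Pi.single a 1)
  have h3 := hx (Pi.single b 1)
  simp only [dotProduct_add, add_dotProduct, dotProduct_single, single_dotProduct, mul_one,
    one_mul, Pi.single_apply] at h1 h2 h3
  have e : ∑ j, (x j a + x j b) ^ 2 = ∑ j, x j a ^ 2 + 2 * ∑ j, x j a * x j b + ∑ j, x j b ^ 2 := by
    rw [Finset.mul_sum, ← Finset.sum_add_distrib, ← Finset.sum_add_distrib]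
    exact Finset.sum_congr rfl fun j _ => by ring
  rw [e, h2, h3] at h1
  by_cases hab : a = b
  · subst hab
    simp at h1 ⊢
    linarith
  · have hba : ¬ b = a := fun h => hab h.symm
    simp [hab, hba] at h1 ⊢
    linarith

theorem exists_compl (hN : N = m + K) {x : Fin N → Fin m → ℝ} (hx : Fr x) :
    ∃ u : Fin N → Fin K → ℝ, Compl x u := by
  classical
  set w : Fin m ⊕ Fin K → EuclideanSpace ℝ (Fin N) :=
    Sum.elim (fun a => WithLp.toLp 2 (fun j => x j a)) (fun _ => 0) with hw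
  have hin : ∀ p q : EuclideanSpace ℝ (Fin N), inner ℝ p q = ∑ j, p j * q j := by
    intro p q
    rw [PiLp.inner_apply]
    exact Finset.sum_congr rfl fun j _ => by simp [mul_comm]
  have hon : Orthonormal ℝ ((Set.range (Sum.inl : Fin m → Fin m ⊕ Fin K)).domRestrict w) := by
    rw [orthonormal_iff_ite]
    rintro ⟨p, hp⟩ ⟨q, hq⟩
    obtain ⟨a, rfl⟩ := id hp
    obtain ⟨b, rfl⟩ := id hq
    have h1 : inner ℝ (w (Sum.inl a)) (w (Sum.inl b)) = if a = b then (1:ℝ) else 0 := by
      rw [hin]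
      exact Fr_orth hx a b
    refine h1.trans ?_
    by_cases hab : a = b
    · subst hab; simp
    · simp [hab]
  obtain ⟨B, hB⟩ := hon.exists_orthonormalBasis_extension_of_card_eq
    (by simp [hN])
  have hBl : ∀ a j, B (Sum.inl a) j = x j a := by
    intro a j
    rw [hB _ ⟨a, rfl⟩]
    rfl
  set u : Fin N → Fin K → ℝ := fun j c => B (Sum.inr c) j with hu
  have hBB : ∀ p q : Fin m ⊕ Fin K, ∑ j, B p j * B q j = if p = q then 1 else 0 := by
    intro p q
    rw [← hin]
    exact (orthonormal_iff_ite.mp B.orthonormal) p q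
  set M : Matrix (Fin N) (Fin m ⊕ Fin K) ℝ := Matrix.of fun j p => B p j with hM
  have hMM : Mᵀ * M = 1 := by
    ext p q
    rw [Matrix.mul_apply, Matrix.one_apply]
    exact hBB p q
  have hMM' : M * Mᵀ = 1 := (Matrix.mul_eq_one_comm_of_card_eq _ _ _ (by simp [hN])).mp hMM
  refine ⟨u, ?_, ?_, ?_, ?_⟩
  · intro i j
    have h := congrFun (congrFun hMM' i) j
    rw [Matrix.mul_apply, Matrix.one_apply, Fintype.sum_sum_type] at h
    simp only [hM, Matrix.of_apply, Matrix.transpose_apply, hBl] at h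
    exact h
  · intro a b
    have h := hBB (Sum.inr a) (Sum.inr b)
    simpa using h
  · intro a b
    have h := hBB (Sum.inl a) (Sum.inr b)
    simp only [hBl] at h
    simpa using h
  · intro G hG
    have hrepr : ∀ z : EuclideanSpace ℝ (Fin m ⊕ Fin K), ∀ j,
        (B.repr.symm z) j = x j ⬝ᵥ (fun a => z (Sum.inl a)) + u j ⬝ᵥ (fun c => z (Sum.inr c)) := by
      intro z j
      rw [← B.sum_repr_symm z]
      have : (∑ p, z p • B p) j = ∑ p, z p * B p j := by
        simp
      rw [this, Fintype.sum_sum_type]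
      simp only [hBl, dotProduct]
      congr 1 <;> exact Finset.sum_congr rfl fun a _ => mul_comm _ _
    have hG1 : Measurable fun z : EuclideanSpace ℝ (Fin N) => G (WithLp.ofLp z) :=
      hG.comp (PiLp.volume_preserving_ofLp (Fin N)).measurable
    have s1 : ∫⁻ c, G c = ∫⁻ z : EuclideanSpace ℝ (Fin N), G (WithLp.ofLp z) :=
      ((PiLp.volume_preserving_ofLp (Fin N)).lintegral_comp hG).symm
    have s2 : ∫⁻ z : EuclideanSpace ℝ (Fin N), G (WithLp.ofLp z) =
        ∫⁻ z : EuclideanSpace ℝ (Fin m ⊕ Fin K), G (WithLp.ofLp (B.repr.symm z)) :=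
      (B.measurePreserving_repr_symm.lintegral_comp hG1).symm
    have hG2 : Measurable fun z : EuclideanSpace ℝ (Fin m ⊕ Fin K) =>
        G (WithLp.ofLp (B.repr.symm z)) := hG1.comp B.measurePreserving_repr_symm.measurable
    have s3 : ∫⁻ z : EuclideanSpace ℝ (Fin m ⊕ Fin K), G (WithLp.ofLp (B.repr.symm z)) =
        ∫⁻ z : Fin m ⊕ Fin K → ℝ, G (WithLp.ofLp (B.repr.symm (WithLp.toLp 2 z))) :=
      ((PiLp.volume_preserving_toLp (Fin m ⊕ Fin K)).lintegral_comp hG2).symm
    have hG3 : Measurable fun z : Fin m ⊕ Fin K → ℝ =>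
        G (WithLp.ofLp (B.repr.symm (WithLp.toLp 2 z))) :=
      hG2.comp (PiLp.volume_preserving_toLp (Fin m ⊕ Fin K)).measurable
    have s4 : ∫⁻ z : Fin m ⊕ Fin K → ℝ, G (WithLp.ofLp (B.repr.symm (WithLp.toLp 2 z))) =
        ∫⁻ q : (Fin m → ℝ) × (Fin K → ℝ), G (WithLp.ofLp (B.repr.symm (WithLp.toLp 2
          ((MeasurableEquiv.sumPiEquivProdPi (fun _ : Fin m ⊕ Fin K => ℝ)).symm q)))) :=
      ((volume_measurePreserving_sumPiEquivProdPi_symm (fun _ : Fin m ⊕ Fin K => ℝ)).lintegral_comp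
        hG3).symm
    have hG4 : Measurable fun q : (Fin m → ℝ) × (Fin K → ℝ) =>
        G (WithLp.ofLp (B.repr.symm (WithLp.toLp 2
          ((MeasurableEquiv.sumPiEquivProdPi (fun _ : Fin m ⊕ Fin K => ℝ)).symm q)))) :=
      hG3.comp (MeasurableEquiv.measurable _)
    rw [s1, s2, s3, s4, Measure.volume_eq_prod, lintegral_prod _ hG4.aemeasurable]
    refine lintegral_congr fun y => lintegral_congr fun v => ?_
    congr 1
    funext j
    exact hrepr _ j

end Pool.Agent.Helper58.FU
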