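import Pool.Agent.Helper58.FU.Star

/-!
# Block configurations: the number of feasible bases and the volume
-/

set_option autoImplicit false
set_option linter.unusedSectionVars false
set_option linter.unusedSimpArgs false
set_option linter.unusedVariables false

namespace Pool.Agent.Helper58.FU

open Finset Matrix MeasureTheory Filter Pool.Agent.Helper484 Pool.Agent.Y568.FL
open scoped ENNReal Topology

variable {m K N : ℕ} {x : Fin N → Fin m → ℝ} {p : Fin N → Fin K}

lemma cnt_of {I : Fin m → Fin N} (hinj : Function.Injective I) {f : Fin K → Fin N}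
    (hf : ∀ a, p (f a) = a) (hr : ∀ j, j ∈ Set.range I ↔ ∀ a, j ≠ f a) (a : Fin K) :
    (univ.filter fun c => p (I c) = a).card + 1 = bs p a := by
  classical
  have h1 : univ.filter (fun i => p i = a) =
      insert (f a) ((univ.filter fun c => p (I c) = a).image I) := by
    ext j
    simp only [mem_filter, mem_univ, true_and, Finset.mem_insert, Finset.mem_image]
    constructor
    · intro hj
      by_cases hja : j = f a
      · exact Or.inl hja
      · right
        have h2 : j ∈ Set.range I := by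
          rw [hr]
          intro a' ha'
          apply hja
          rw [ha', hf] at hj
          rw [ha', hj]
        obtain ⟨c, rfl⟩ := h2
        exact ⟨c, hj, rfl⟩
    · rintro (rfl | ⟨c, hc, rfl⟩)
      · exact hf a
      · exact hc
  unfold bs
  rw [h1, Finset.card_insert_of_notMem, Finset.card_image_of_injective _ hinj]
  intro hmem
  obtain ⟨c, -, hc⟩ := Finset.mem_image.mp hmem
  exact (hr (f a)).mp ⟨c, hc⟩ a rfl

lemma Blk.exists_f (h : Blk x p) {I : Fin m → Fin N} (hD : D x I ≠ 0) :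
    ∃ f : Fin K → Fin N, (∀ a, p (f a) = a) ∧ ∀ j, j ∈ Set.range I ↔ ∀ a, j ≠ f a := by
  choose f hf hfI using fun a => h.exists_miss hD a
  refine ⟨f, hf, fun j => ⟨?_, ?_⟩⟩
  · rintro hj a rfl
    exact hfI a hj
  · intro hj
    by_contra hcon
    exact hfI (p j) (h.miss hD hcon (fun he => hj (p j) he.symm) (hf (p j)))

lemma exists_I (hN : N = m + K) {f : Fin K → Fin N} (hf : ∀ a, p (f a) = a) :
    ∃ I : Fin m → Fin N, StrictMono I ∧ ∀ j, j ∈ Set.range I ↔ ∀ a, j ≠ f a := by
  classical
  have hinj : Function.Injective f := fun a a' haa => by rw [← hf a, ← hf a', haa]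
  have hcard : ((univ.image f)ᶜ : Finset (Fin N)).card = m := by
    rw [Finset.card_compl, Finset.card_image_of_injective _ hinj]
    simp [hN]
  refine ⟨⇑(((univ.image f)ᶜ : Finset (Fin N)).orderEmbOfFin hcard),
    (((univ.image f)ᶜ : Finset (Fin N)).orderEmbOfFin hcard).strictMono, fun j => ?_⟩
  rw [Finset.range_orderEmbOfFin]
  simp only [Finset.coe_compl, Finset.coe_image, Finset.coe_univ, Set.image_univ,
    Set.mem_compl_iff, Set.mem_range, not_exists]
  exact ⟨fun h a ha => h a ha.symm, fun h a ha => h a ha.symm⟩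

lemma Blk.det_sq (h : Blk x p) {I : Fin m → Fin N} (hD : D x I ≠ 0) :
    (D x I) ^ 2 = ∏ a, ((bs p a : ℕ) : ℝ)⁻¹ := by
  obtain ⟨f, hf, hr⟩ := h.exists_f hD
  exact h.det (injective_of_D hD) (fun a => cnt_of (injective_of_D hD) hf hr a)

lemma Blk.card_FF (h : Blk x p) : (FF x (fun _ => 1)).card = ∏ a, bs p a := by
  classical
  have hP : (Fintype.piFinset fun a : Fin K => univ.filter fun i : Fin N => p i = a).card =
      ∏ a, bs p a := by
    rw [Fintype.card_piFinset]
    rfl
  rw [← hP]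
  have hmemP : ∀ f : Fin K → Fin N, f ∈ (Fintype.piFinset fun a : Fin K =>
      univ.filter fun i : Fin N => p i = a) ↔ ∀ a, p (f a) = a := by
    intro f; simp [Fintype.mem_piFinset]
  have hex : ∀ I ∈ FF x (fun _ => 1), ∃ f : Fin K → Fin N, (∀ a, p (f a) = a) ∧
      ∀ j, j ∈ Set.range I ↔ ∀ a, j ≠ f a := fun I hI =>
    h.exists_f (Finset.mem_filter.mp hI).2.2.1
  refine Finset.card_bij (fun I hI => (hex I hI).choose) ?_ ?_ ?_
  · intro I hI
    rw [hmemP]
    exact (hex I hI).choose_spec.1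
  · intro I hI J hJ hIJ
    have hI' := (Finset.mem_filter.mp hI).2
    have hJ' := (Finset.mem_filter.mp hJ).2
    apply (StrictMono.range_inj hI'.1 hJ'.1).mp
    ext j
    rw [(hex I hI).choose_spec.2, (hex J hJ).choose_spec.2]
    rw [hIJ]
  · intro f hf
    rw [hmemP] at hf
    obtain ⟨I, hI, hr⟩ := exists_I h.card hf
    have hdet := h.det hI.injective (fun a => cnt_of hI.injective hf hr a)
    have hD : D x I ≠ 0 := by
      intro h0
      rw [h0] at hdet
      have hpos : 0 < ∏ a, ((bs p a : ℕ) : ℝ)⁻¹ := Finset.prod_pos fun a _ => by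
        have := h.bs_pos a
        positivity
      rw [← hdet] at hpos
      norm_num at hpos
    have hmem : I ∈ FF x (fun _ => 1) :=
      Finset.mem_filter.mpr ⟨mem_univ _, hI, hD, h.feas hD⟩
    refine ⟨I, hmem, ?_⟩
    obtain ⟨h1, h2⟩ := (hex I hmem).choose_spec
    funext a
    by_contra hne
    have h3 : ∀ a', (hex I hmem).choose a ≠ f a' := by
      intro a' ha'
      have h4 := h1 a
      rw [ha', hf a'] at h4
      rw [h4] at ha'
      exact hne ha'
    have h5 := (hr ((hex I hmem).choose a)).mpr h3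
    exact (h2 _).mp h5 a rfl

theorem Blk.SD_eq (h : Blk x p) : SD x (fun _ => 1) = √(∏ a, (bs p a : ℝ)) := by
  classical
  have hpos : 0 < ∏ a, (bs p a : ℝ) := Finset.prod_pos fun a _ => by
    exact_mod_cast h.bs_pos a
  have h1 : ∀ I ∈ FF x (fun _ => 1), |D x I| = (√(∏ a, (bs p a : ℝ)))⁻¹ := by
    intro I hI
    have h2 := h.det_sq (Finset.mem_filter.mp hI).2.2.1
    rw [Finset.prod_inv_distrib] at h2
    rw [← Real.sqrt_sq_eq_abs, h2, Real.sqrt_inv]
  unfold SD
  rw [Finset.sum_congr rfl h1, Finset.sum_const, h.card_FF, nsmul_eq_mul]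
  push_cast
  have h3 := Real.mul_self_sqrt hpos.le
  have h4 : 0 < √(∏ a, (bs p a : ℝ)) := Real.sqrt_pos.mpr hpos
  field_simp
  rw [sq]
  exact h3.symm

lemma hrep_of {x : Fin N → Fin m → ℝ} (hx : Fr x) (hsum : ∑ j, x j = 0) :
    ∀ y : Fin m → ℝ, ∃ l, Rep x y l := by
  have hpol : ∀ y : Fin m → ℝ, ∑ j, (x j ⬝ᵥ y) • x j = y := by
    intro y
    funext a
    simp only [Finset.sum_apply, Pi.smul_apply, smul_eq_mul, dotProduct]
    have h1 : ∀ j, (∑ b, x j b * y b) * x j a = ∑ b, y b * (x j b * x j a) := by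
      intro j
      rw [Finset.sum_mul]
      exact Finset.sum_congr rfl fun b _ => by ring
    simp only [h1]
    rw [Finset.sum_comm]
    simp only [← Finset.mul_sum, Fr_orth hx]
    simp
  intro y
  set t : ℝ := ∑ j, |x j ⬝ᵥ y| with ht
  refine ⟨fun j => x j ⬝ᵥ y + t, fun j => ?_, ?_⟩
  · have h1 : |x j ⬝ᵥ y| ≤ t :=
      Finset.single_le_sum (f := fun j => |x j ⬝ᵥ y|) (fun j _ => abs_nonneg _) (mem_univ j)
    have h2 := neg_abs_le (x j ⬝ᵥ y)
    linarith
  · simp only [add_smul, Finset.sum_add_distrib]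
    rw [hpol y, ← Finset.smul_sum, hsum, smul_zero, add_zero]

lemma zero_mem_hull {x : Fin N → Fin m → ℝ} (hN : 0 < N) (hsum : ∑ j, x j = 0) :
    (0 : Fin m → ℝ) ∈ convexHull ℝ (Set.range x) := by
  have hN' : (0:ℝ) < N := by exact_mod_cast hN
  have h := (convex_convexHull ℝ (Set.range x)).sum_mem (t := (univ : Finset (Fin N)))
    (w := fun _ => (N:ℝ)⁻¹) (z := x) (fun _ _ => by positivity)
    (by simp [hN'.ne']) (fun j _ => subset_convexHull ℝ _ ⟨j, rfl⟩)
  rw [← Finset.smul_sum, hsum, smul_zero] at h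
  exact h

/-- **Volume of a block configuration.** -/
theorem Blk.vol (h : Blk x p) (hx : Fr x) (hN : 0 < N) (hsum : ∑ j, x j = 0) :
    volume (convexHull ℝ (Set.range x)) =
      ENNReal.ofReal (√(∏ a, (bs p a : ℝ)) / m.factorial) := by
  rw [← h.SD_eq]
  refine le_antisymm ?_ (vol_ge h.gen (zero_mem_hull hN hsum))
  exact vol_le (b := fun _ => 1) (fun _ => one_pos) (fun I _ hI j => hI j) (hrep_of hx hsum)

/-- **Volume of the convex hull of a centred tight frame.** -/
theorem hull_le' (hN : N = m + K) (hK : 0 < K) {x : Fin N → Fin m → ℝ} (hx : Fr x)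
    (hsum : ∑ j, x j = 0) : volume (convexHull ℝ (Set.range x)) ≤
      ENNReal.ofReal (√((N : ℝ) / K) ^ K / m.factorial) := by
  obtain ⟨b, hb, hgen, hone⟩ := exists_generic_rhs x
  have hbpos : ∀ j, 0 < b j := fun j => by linarith [(hb j).1]
  refine (vol_le hbpos hone (hrep_of hx hsum)).trans (ENNReal.ofReal_le_ofReal ?_)
  exact div_le_div_of_nonneg_right (SD_le' hN hK hx hgen) (by positivity)

end Pool.Agent.Helper58.FU
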