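import Pool.Agent.Helper58.FU.Comp

/-!
# Decomposition of product measures along the cells of the feasible bases
-/

set_option autoImplicit false
set_option linter.unusedSectionVars false
set_option linter.unusedSimpArgs false
set_option linter.unusedVariables false

namespace Pool.Agent.Helper58.FU

open Finset Matrix MeasureTheory Pool.Agent.Helper484 Pool.Agent.Y568.FL
open scoped ENNReal

variable {m K N : ℕ}

lemma lint_prod_gen : ∀ (n : ℕ) (g : Fin n → ℝ → ℝ≥0∞), (∀ i, Measurable (g i)) →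
    (∫⁻ s : Fin n → ℝ, ∏ i, g i (s i)) = ∏ i, ∫⁻ t, g i t := by
  intro n
  induction n with
  | zero =>
    intro g _
    rw [Measure.volume_pi_eq_dirac (fun i => i.elim0), lintegral_dirac]
    simp
  | succ n ih =>
    intro g hg
    have hm : Measurable fun s : Fin (n + 1) → ℝ => ∏ i, g i (s i) :=
      Finset.measurable_prod _ fun i _ => (hg i).comp (measurable_pi_apply i)
    rw [Pool.Agent.Helper734.IB.lintegral_succ n _ hm]
    have e : ∀ a : ℝ, (∫⁻ v : Fin n → ℝ, ∏ i, g i ((Fin.cons a v : Fin (n + 1) → ℝ) i)) =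
        g 0 a * ∏ i : Fin n, ∫⁻ t, g i.succ t := by
      intro a
      simp only [Fin.prod_univ_succ, Fin.cons_zero, Fin.cons_succ]
      rw [lintegral_const_mul, ih (fun i => g i.succ) (fun i => hg _)]
      exact Finset.measurable_prod _ fun i _ => (hg _).comp (measurable_pi_apply i)
    simp only [e]
    rw [lintegral_mul_const _ (hg 0), Fin.prod_univ_succ]

/-- the indicator of the open positive orthant -/
noncomputable def pos (l : Fin m → ℝ) : ℝ≥0∞ := ∏ a, if 0 < l a then 1 else 0

lemma pos_of {l : Fin m → ℝ} (hl : ∀ a, 0 < l a) : pos l = 1 := by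
  unfold pos
  exact Finset.prod_eq_one fun a _ => if_pos (hl a)

lemma pos_of_not {l : Fin m → ℝ} (hl : ¬ ∀ a, 0 < l a) : pos l = 0 := by
  push Not at hl
  obtain ⟨a, ha⟩ := hl
  exact Finset.prod_eq_zero (mem_univ a) (if_neg (not_lt.mpr ha))

lemma pos_meas : Measurable (pos : (Fin m → ℝ) → ℝ≥0∞) := by
  unfold pos
  refine Finset.measurable_prod _ fun a _ => ?_
  exact Measurable.ite (measurableSet_lt measurable_const (measurable_pi_apply a))
    measurable_const measurable_const

lemma sum_pos_le {x : Fin N → Fin m → ℝ} {b : Fin N → ℝ} (hgen : Gen x b) (y : Fin m → ℝ) :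
    ∑ I ∈ FF x b, pos (Lam x I y) ≤ 1 := by
  classical
  by_cases h : ∃ I ∈ FF x b, ∀ a, 0 < Lam x I y a
  · obtain ⟨I, hI, hp⟩ := h
    rw [Finset.sum_eq_single I]
    · exact (pos_of hp).le
    · intro J hJ hne
      apply pos_of_not
      intro hJp
      exact hne (eq_of_mem hgen (Finset.mem_filter.mp hJ).2 (Finset.mem_filter.mp hI).2 hJp hp)
    · intro hn; exact absurd hI hn
  · push Not at h
    rw [Finset.sum_eq_zero]
    · exact zero_le
    · intro I hI
      obtain ⟨a, ha⟩ := h I hI
      exact pos_of_not fun hc => absurd (hc a) (not_lt.mpr ha)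

lemma cov_term {x : Fin N → Fin m → ℝ} {I : Fin m → Fin N} (h : D x I ≠ 0)
    (F : (Fin m → ℝ) → ℝ≥0∞) (hF : Measurable F) :
    ∫⁻ y, F (Lam x I y) = ENNReal.ofReal |D x I| * ∫⁻ l, F l := by
  have hdet : ((A x I)⁻¹).det ≠ 0 := by
    rw [Matrix.det_nonsing_inv, Ring.inverse_eq_inv]
    exact inv_ne_zero h
  have h1 := Real.map_matrix_volume_pi_eq_smul_volume_pi hdet
  have h2 : ∫⁻ y, F (Lam x I y) =
      ∫⁻ l, F l ∂(Measure.map (Matrix.toLin' (A x I)⁻¹) volume) := by
    rw [lintegral_map hF]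
    · rfl
    · exact (LinearMap.continuous_of_finiteDimensional _).measurable
  rw [h2, h1, lintegral_smul_measure, smul_eq_mul]
  congr 2
  rw [Matrix.det_nonsing_inv, Ring.inverse_eq_inv, inv_inv]
  rfl

/-- **Decomposition.** The cells of the feasible bases are disjoint. -/
theorem decomp {x : Fin N → Fin m → ℝ} {u : Fin N → Fin K → ℝ} {b : Fin N → ℝ}
    (hc : Compl x u) (hgen : Gen x b) (G : (Fin N → ℝ) → ℝ≥0∞) (hG : Measurable G) :
    ∑ I ∈ FF x b, ENNReal.ofReal |D x I| *
      ∫⁻ v : Fin K → ℝ, ∫⁻ l : Fin m → ℝ, pos l * G (fun j => u j ⬝ᵥ v + sp I l j) ≤ ∫⁻ c, G c := by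
  classical
  rw [hc.int G hG]
  have hjoint : Measurable fun p : (Fin m → ℝ) × (Fin K → ℝ) =>
      G (fun j => x j ⬝ᵥ p.1 + u j ⬝ᵥ p.2) := by
    refine hG.comp (measurable_pi_lambda _ fun j => ?_)
    exact (Continuous.add (Continuous.dotProduct continuous_const continuous_fst)
      (Continuous.dotProduct continuous_const continuous_snd)).measurable
  set H : (Fin m → ℝ) → ℝ≥0∞ := fun y => ∫⁻ v : Fin K → ℝ, G (fun j => x j ⬝ᵥ y + u j ⬝ᵥ v) with hH
  have hHm : Measurable H := hjoint.lintegral_prod_right'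
  have step : ∀ y, ∑ I ∈ FF x b, pos (Lam x I y) * H (∑ a, Lam x I y a • x (I a)) ≤ H y := by
    intro y
    have e : ∀ I ∈ FF x b, pos (Lam x I y) * H (∑ a, Lam x I y a • x (I a)) =
        pos (Lam x I y) * H y := by
      intro I hI
      rw [sum_Lam (Finset.mem_filter.mp hI).2.2.1]
    rw [Finset.sum_congr rfl e, ← Finset.sum_mul]
    calc (∑ I ∈ FF x b, pos (Lam x I y)) * H y ≤ 1 * H y :=
          mul_le_mul' (sum_pos_le hgen y) le_rfl
      _ = H y := one_mul _
  refine le_trans ?_ (lintegral_mono step)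
  have hFm : ∀ I : Fin m → Fin N, Measurable fun l : Fin m → ℝ =>
      pos l * H (∑ a, l a • x (I a)) := by
    intro I
    refine pos_meas.mul (hHm.comp ?_)
    have : Continuous fun l : Fin m → ℝ => ∑ a, l a • x (I a) := by fun_prop
    exact this.measurable
  have hFm' : ∀ I : Fin m → Fin N, Measurable fun y : Fin m → ℝ =>
      pos (Lam x I y) * H (∑ a, Lam x I y a • x (I a)) := fun I => (hFm I).comp (Lam_meas x I)
  rw [lintegral_finsetSum _ (fun I _ => hFm' I)]
  refine Finset.sum_le_sum fun I hI => ?_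
  have hD : D x I ≠ 0 := (Finset.mem_filter.mp hI).2.2.1
  rw [cov_term hD (fun l => pos l * H (∑ a, l a • x (I a))) (hFm I)]
  refine mul_le_mul' le_rfl ?_
  -- translate in `v`
  have hshift : ∀ l : Fin m → ℝ, H (∑ a, l a • x (I a)) =
      ∫⁻ v : Fin K → ℝ, G (fun j => u j ⬝ᵥ v + sp I l j) := by
    intro l
    have h1 := lintegral_add_right_eq_self (μ := (volume : Measure (Fin K → ℝ)))
      (fun v : Fin K → ℝ => G (fun j => x j ⬝ᵥ (∑ a, l a • x (I a)) + u j ⬝ᵥ v))
      (∑ a, l a • u (I a))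
    rw [hH]
    simp only
    rw [← h1]
    refine lintegral_congr fun v => ?_
    congr 1
    funext j
    rw [dotProduct_add, dotProduct_sum, dotProduct_sum]
    simp only [dotProduct_smul, smul_eq_mul, sp]
    have e2 : ∀ a, l a * (x j ⬝ᵥ x (I a)) + l a * (u j ⬝ᵥ u (I a)) =
        if I a = j then l a else 0 := by
      intro a
      rw [← mul_add, hc.row]
      by_cases h : j = I a
      · rw [if_pos h, if_pos h.symm, mul_one]
      · rw [if_neg h, if_neg (fun h' => h h'.symm), mul_zero]
    rw [← Finset.sum_congr rfl (fun a _ => e2 a), Finset.sum_add_distrib]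
    ring
  have hGm : Measurable fun p : (Fin m → ℝ) × (Fin K → ℝ) =>
      pos p.1 * G (fun j => u j ⬝ᵥ p.2 + sp I p.1 j) := by
    refine (pos_meas.comp measurable_fst).mul (hG.comp (measurable_pi_lambda _ fun j => ?_))
    unfold sp
    refine (Continuous.dotProduct continuous_const continuous_snd).measurable.add ?_
    refine Finset.measurable_sum _ fun a _ => ?_
    by_cases h : I a = j
    · simp only [if_pos h]
      exact (measurable_pi_apply a).comp measurable_fst
    · simp only [if_neg h]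
      exact measurable_const
  simp only [hshift]
  rw [lintegral_lintegral_swap (f := fun (v : Fin K → ℝ) (l : Fin m → ℝ) =>
    pos l * G (fun j => u j ⬝ᵥ v + sp I l j)) (hGm.comp measurable_swap).aemeasurable]
  refine lintegral_mono fun l => ?_
  rw [lintegral_const_mul]
  exact hG.comp (measurable_pi_lambda _ fun j =>
    ((Continuous.dotProduct continuous_const continuous_id).measurable.add_const _))

/-- the tail of a function -/
noncomputable def tl (g : ℝ → ℝ≥0∞) (t : ℝ) : ℝ≥0∞ := ∫⁻ s in Set.Ioi 0, g (t + s)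

lemma sp_apply {I : Fin m → Fin N} (hI : Function.Injective I) (l : Fin m → ℝ) (a : Fin m) :
    sp I l (I a) = l a := by
  unfold sp
  rw [Finset.sum_eq_single a]
  · simp
  · intro c _ hc
    exact if_neg fun h => hc (hI h)
  · intro h; exact absurd (mem_univ a) h

lemma sp_zero {I : Fin m → Fin N} (l : Fin m → ℝ) {j : Fin N} (hj : ∀ a, I a ≠ j) :
    sp I l j = 0 :=
  Finset.sum_eq_zero fun a _ => if_neg (hj a)

open Classical in
theorem inner_prod {I : Fin m → Fin N} (hI : Function.Injective I) (g : Fin N → ℝ → ℝ≥0∞)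
    (hg : ∀ j, Measurable (g j)) (z : Fin N → ℝ) :
    ∫⁻ l : Fin m → ℝ, pos l * ∏ j, g j (z j + sp I l j) =
      ∏ j, if ∃ a, I a = j then tl (g j) (z j) else g j (z j) := by
  set T : Finset (Fin N) := univ.image I with hT
  have hmem : ∀ j, j ∈ T ↔ ∃ a, I a = j := by intro j; simp [hT]
  have h1 : ∀ l : Fin m → ℝ, ∏ j, g j (z j + sp I l j) =
      (∏ a, g (I a) (z (I a) + l a)) * ∏ j ∈ Tᶜ, g j (z j) := by
    intro l
    rw [← Finset.prod_mul_prod_compl T]
    congr 1
    · rw [hT, Finset.prod_image (fun a _ c _ h => hI h)]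
      exact Finset.prod_congr rfl fun a _ => by rw [sp_apply hI]
    · refine Finset.prod_congr rfl fun j hj => ?_
      rw [sp_zero, add_zero]
      intro a ha
      rw [Finset.mem_compl, hmem] at hj
      exact hj ⟨a, ha⟩
  have h2 : ∏ j, (if ∃ a, I a = j then tl (g j) (z j) else g j (z j)) =
      (∏ a, tl (g (I a)) (z (I a))) * ∏ j ∈ Tᶜ, g j (z j) := by
    rw [← Finset.prod_mul_prod_compl T]
    congr 1
    · rw [hT, Finset.prod_image (fun a _ c _ h => hI h)]
      exact Finset.prod_congr rfl fun a _ => if_pos ⟨a, rfl⟩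
    · refine Finset.prod_congr rfl fun j hj => if_neg ?_
      rw [Finset.mem_compl, hmem] at hj
      exact hj
  rw [h2]
  have h3 : ∀ l : Fin m → ℝ, pos l * ∏ j, g j (z j + sp I l j) =
      (∏ a, (if 0 < l a then 1 else 0) * g (I a) (z (I a) + l a)) * ∏ j ∈ Tᶜ, g j (z j) := by
    intro l
    rw [h1, Finset.prod_mul_distrib, ← mul_assoc]
    rfl
  simp only [h3]
  have hm1 : ∀ a : Fin m, Measurable fun t : ℝ =>
      (if 0 < t then (1:ℝ≥0∞) else 0) * g (I a) (z (I a) + t) := fun a =>
    (Measurable.ite (measurableSet_lt measurable_const measurable_id) measurable_const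
      measurable_const).mul ((hg _).comp (measurable_const.add measurable_id))
  have hm2 : Measurable fun l : Fin m → ℝ =>
      ∏ a, (if 0 < l a then (1:ℝ≥0∞) else 0) * g (I a) (z (I a) + l a) :=
    Finset.measurable_prod _ fun a _ => (hm1 a).comp (measurable_pi_apply a)
  rw [lintegral_mul_const _ hm2, lint_prod_gen m _ hm1]
  congr 1
  refine Finset.prod_congr rfl fun a _ => ?_
  unfold tl
  rw [← lintegral_indicator measurableSet_Ioi]
  refine lintegral_congr fun t => ?_
  by_cases ht : 0 < t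
  · rw [if_pos ht, one_mul, Set.indicator_of_mem (Set.mem_Ioi.mpr ht)]
  · rw [if_neg ht, zero_mul, Set.indicator_of_notMem (by simpa using ht)]

open Classical in
/-- **Decomposition of a product measure.** -/
theorem decomp_prod {x : Fin N → Fin m → ℝ} {u : Fin N → Fin K → ℝ} {b : Fin N → ℝ}
    (hc : Compl x u) (hgen : Gen x b) (g : Fin N → ℝ → ℝ≥0∞) (hg : ∀ j, Measurable (g j)) :
    ∑ I ∈ FF x b, ENNReal.ofReal |D x I| *
      ∫⁻ v : Fin K → ℝ, ∏ j, (if ∃ a, I a = j then tl (g j) (u j ⬝ᵥ v) else g j (u j ⬝ᵥ v)) ≤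
      ∏ j, ∫⁻ t, g j t := by
  have h := decomp hc hgen (fun c => ∏ j, g j (c j))
    (Finset.measurable_prod _ fun j _ => (hg j).comp (measurable_pi_apply j))
  rw [lint_prod_gen N g hg] at h
  refine le_trans (le_of_eq ?_) h
  refine Finset.sum_congr rfl fun I hI => ?_
  congr 1
  refine lintegral_congr fun v => ?_
  exact (inner_prod (Finset.mem_filter.mp hI).2.1.injective g hg (fun j => u j ⬝ᵥ v)).symm

end Pool.Agent.Helper58.FU
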