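import Pool.Agent.Helper58.FU.Tail

/-!
# The bound `∑ |det x_I| ≤ (N / K) ^ (K / 2)`
-/

set_option autoImplicit false
set_option linter.unusedSectionVars false
set_option linter.unusedSimpArgs false
set_option linter.unusedVariables false

namespace Pool.Agent.Helper58.FU

open Finset Matrix MeasureTheory Filter Pool.Agent.Helper484 Pool.Agent.Y568.FL
open scoped ENNReal Topology

variable {m K N : ℕ}

/-- weighted AM-GM for products of two kinds of factors -/
lemma amgm {ι : Type*} (s : Finset ι) (p : ι → ℝ) (hp : ∀ i ∈ s, 0 ≤ p i) (hp1 : ∑ i ∈ s, p i = 1)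
    (R : ι → Fin N → Prop) [∀ i j, Decidable (R i j)] (f F : Fin N → ℝ) (hf : ∀ j, 0 < f j) (hF : ∀ j, 0 < F j) :
    ∏ j, (f j ^ (∑ i ∈ s.filter (fun i => ¬ R i j), p i) *
      F j ^ (1 - ∑ i ∈ s.filter (fun i => ¬ R i j), p i)) ≤
    ∑ i ∈ s, p i * ∏ j, (if R i j then F j else f j) := by
  have hw : ∀ i j, 0 < (if R i j then F j else f j) := by
    intro i j; split_ifs <;> [exact hF j; exact hf j]
  refine le_trans (le_of_eq ?_) (Real.geom_mean_le_arith_mean_weighted s p
    (fun i => ∏ j, (if R i j then F j else f j)) hp hp1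
    (fun i _ => Finset.prod_nonneg fun j _ => (hw i j).le))
  have h1 : ∀ i ∈ s, (∏ j, (if R i j then F j else f j)) ^ p i =
      ∏ j, (if R i j then F j else f j) ^ p i := fun i _ =>
    (Real.finsetProd_rpow _ _ (fun j _ => (hw i j).le) _).symm
  rw [Finset.prod_congr rfl h1, Finset.prod_comm]
  refine Finset.prod_congr rfl fun j _ => ?_
  have h2 : 1 - ∑ i ∈ s.filter (fun i => ¬ R i j), p i = ∑ i ∈ s.filter (fun i => R i j), p i := by
    rw [← hp1, ← Finset.sum_filter_add_sum_filter_not s (fun i => R i j)]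
    ring
  rw [h2, Real.rpow_sum_of_pos (hf j), Real.rpow_sum_of_pos (hF j),
    ← Finset.prod_filter_mul_prod_filter_not s (fun i => R i j), mul_comm]
  congr 1
  · refine Finset.prod_congr rfl fun i hi => ?_
    rw [if_pos (Finset.mem_filter.mp hi).2]
  · refine Finset.prod_congr rfl fun i hi => ?_
    rw [if_neg (Finset.mem_filter.mp hi).2]

lemma gauss_lint (K : ℕ) : ∫⁻ v : Fin K → ℝ, ENNReal.ofReal (Real.exp (-(v ⬝ᵥ v) / 2)) =
    ENNReal.ofReal (√(2 * Real.pi) ^ K) := by
  have h1 : ∀ v : Fin K → ℝ, ENNReal.ofReal (Real.exp (-(v ⬝ᵥ v) / 2)) =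
      ∏ a, ENNReal.ofReal (Real.exp (-v a ^ 2 / 2)) := fun v => (prod_ofReal_exp v).symm
  simp only [h1]
  rw [lint_prod_gen K (fun _ t => ENNReal.ofReal (Real.exp (-t ^ 2 / 2))) (fun _ => by fun_prop),
    Finset.prod_const, Finset.card_univ, Fintype.card_fin, ENNReal.ofReal_pow (by positivity)]
  congr 1
  have h2 : ∀ t : ℝ, Real.exp (-t ^ 2 / 2) = Real.exp (-(1/2) * t ^ 2) := fun t => by
    congr 1; ring
  simp only [h2]
  rw [← ofReal_integral_eq_lintegral_ofReal, integral_gaussian]
  · congr 2; ring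
  · exact integrable_exp_neg_mul_sq (by norm_num : (0:ℝ) < 1/2)
  · exact Filter.Eventually.of_forall fun t => (Real.exp_pos _).le

lemma Compl.norm {x : Fin N → Fin m → ℝ} {u : Fin N → Fin K → ℝ} (hc : Compl x u)
    (v : Fin K → ℝ) : ∑ j, (u j ⬝ᵥ v) ^ 2 = v ⬝ᵥ v := by
  simp only [dotProduct]
  have h1 : ∀ j, (∑ a, u j a * v a) ^ 2 = ∑ a, ∑ b, v a * v b * (u j a * u j b) := by
    intro j
    rw [sq, Finset.sum_mul_sum]
    exact Finset.sum_congr rfl fun a _ => Finset.sum_congr rfl fun b _ => by ring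
  simp only [h1]
  rw [Finset.sum_comm]
  refine Finset.sum_congr rfl fun a _ => ?_
  rw [Finset.sum_comm]
  simp only [← Finset.mul_sum, hc.col]
  simp

open Classical in
/-- the marginals -/
noncomputable def marg (x : Fin N → Fin m → ℝ) (b : Fin N → ℝ) (j : Fin N) : ℝ :=
  ∑ I ∈ (FF x b).filter (fun I => ¬ ∃ a, I a = j), |D x I| / SD x b

lemma marg_nonneg (x : Fin N → Fin m → ℝ) (b : Fin N → ℝ) (j : Fin N) : 0 ≤ marg x b j :=
  Finset.sum_nonneg fun I _ => div_nonneg (abs_nonneg _)
    (Finset.sum_nonneg fun I _ => abs_nonneg _)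

lemma sum_p {x : Fin N → Fin m → ℝ} {b : Fin N → ℝ} (h : 0 < SD x b) :
    ∑ I ∈ FF x b, |D x I| / SD x b = 1 := by
  rw [← Finset.sum_div]
  exact div_self h.ne'

lemma marg_le_one {x : Fin N → Fin m → ℝ} {b : Fin N → ℝ} (h : 0 < SD x b) (j : Fin N) :
    marg x b j ≤ 1 := by
  classical
  rw [← sum_p h]
  exact Finset.sum_le_sum_of_subset_of_nonneg (Finset.filter_subset _ _)
    (fun I _ _ => div_nonneg (abs_nonneg _) h.le)

lemma sum_marg (hN : N = m + K) {x : Fin N → Fin m → ℝ} {b : Fin N → ℝ} (h : 0 < SD x b) :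
    ∑ j, marg x b j = K := by
  classical
  unfold marg
  simp only [Finset.sum_filter]
  rw [Finset.sum_comm]
  have h1 : ∀ I ∈ FF x b, ∑ j : Fin N, (if ¬ ∃ a, I a = j then |D x I| / SD x b else 0) =
      K * (|D x I| / SD x b) := by
    intro I hI
    have hinj : Function.Injective I := (Finset.mem_filter.mp hI).2.1.injective
    rw [← Finset.sum_filter, Finset.sum_const, nsmul_eq_mul]
    congr 1
    have h2 : (univ.filter fun j : Fin N => ¬ ∃ a, I a = j) = (univ.image I)ᶜ := by
      ext j; simp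
    rw [h2, Finset.card_compl, Finset.card_image_of_injective _ hinj]
    simp [hN]
  rw [Finset.sum_congr rfl h1, ← Finset.mul_sum, sum_p h, mul_one]

theorem SD_entropy (hN : N = m + K) {x : Fin N → Fin m → ℝ} {b : Fin N → ℝ} (hx : Fr x)
    (hgen : Gen x b) (h : 0 < SD x b) :
    SD x b * ∏ j, marg x b j ^ (marg x b j / 2) ≤ 1 := by
  classical
  obtain ⟨u, hc⟩ := exists_compl hN hx
  set q : Fin N → ℝ := marg x b with hq
  have hq0 : ∀ j, 0 ≤ q j := marg_nonneg x b
  have hq1 : ∀ j, q j ≤ 1 := marg_le_one h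
  have key : ∀ ε : ℝ, 0 < ε → SD x b * (Real.exp (-ε) ^ N * ∏ j, kap (q j)) *
      √(2 * Real.pi) ^ K ≤ 1 := by
    intro ε hε
    choose f F hd hfF using fun j => fam (hq0 j) (hq1 j) hε
    have h1 := decomp_prod hc hgen (fun j s => ENNReal.ofReal (f j s))
      (fun j => (ENNReal.continuous_ofReal.comp (hd j).fcont).measurable)
    have h2 : ∏ j, ∫⁻ t, ENNReal.ofReal (f j t) ≤ 1 :=
      Finset.prod_le_one' fun j _ => (hd j).int
    have h3 := h1.trans h2
    have hpt : ∀ v : Fin K → ℝ, ENNReal.ofReal (SD x b * (Real.exp (-ε) ^ N * ∏ j, kap (q j))) *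
        ENNReal.ofReal (Real.exp (-(v ⬝ᵥ v) / 2)) ≤
        ∑ I ∈ FF x b, ENNReal.ofReal |D x I| * ∏ j, (if ∃ a, I a = j then
          tl (fun s => ENNReal.ofReal (f j s)) (u j ⬝ᵥ v) else
          ENNReal.ofReal (f j (u j ⬝ᵥ v))) := by
      intro v
      have e1 : ∀ I ∈ FF x b, ENNReal.ofReal |D x I| * ∏ j, (if ∃ a, I a = j then
          tl (fun s => ENNReal.ofReal (f j s)) (u j ⬝ᵥ v) else
          ENNReal.ofReal (f j (u j ⬝ᵥ v))) = ENNReal.ofReal (|D x I| * ∏ j, (if ∃ a, I a = j then
          F j (u j ⬝ᵥ v) else f j (u j ⬝ᵥ v))) := by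
        intro I _
        rw [ENNReal.ofReal_mul (abs_nonneg _), ENNReal.ofReal_prod_of_nonneg]
        · congr 1
          refine Finset.prod_congr rfl fun j _ => ?_
          split_ifs
          · exact (hd j).tl _
          · rfl
        · intro j _
          split_ifs
          · exact ((hd j).Fpos _).le
          · exact ((hd j).fpos _).le
      rw [Finset.sum_congr rfl e1, ← ENNReal.ofReal_sum_of_nonneg, ← ENNReal.ofReal_mul]
      · apply ENNReal.ofReal_le_ofReal
        have h4 := amgm (FF x b) (fun I => |D x I| / SD x b)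
          (fun I _ => div_nonneg (abs_nonneg _) h.le) (sum_p h)
          (fun I j => ∃ a, I a = j) (fun j => f j (u j ⬝ᵥ v)) (fun j => F j (u j ⬝ᵥ v))
          (fun j => (hd j).fpos _) (fun j => (hd j).Fpos _)
        have h5 : ∏ j, (Real.exp (-ε) * kap (q j) * Real.exp (-(u j ⬝ᵥ v) ^ 2 / 2)) ≤
            ∏ j, (f j (u j ⬝ᵥ v) ^ q j * F j (u j ⬝ᵥ v) ^ (1 - q j)) := by
          refine Finset.prod_le_prod (fun j _ => ?_) (fun j _ => hfF j _)
          have : 0 ≤ kap (q j) := Real.rpow_nonneg (div_nonneg (hq0 j) (by positivity)) _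
          positivity
        have h6 : ∏ j, (Real.exp (-ε) * kap (q j) * Real.exp (-(u j ⬝ᵥ v) ^ 2 / 2)) =
            (Real.exp (-ε) ^ N * ∏ j, kap (q j)) * Real.exp (-(v ⬝ᵥ v) / 2) := by
          rw [Finset.prod_mul_distrib, Finset.prod_mul_distrib, Finset.prod_const,
            Finset.card_univ, Fintype.card_fin, ← Real.exp_sum]
          congr 2
          rw [← hc.norm v, ← Finset.sum_neg_distrib, Finset.sum_div]
        have h7 : ∑ I ∈ FF x b, |D x I| / SD x b * ∏ j, (if ∃ a, I a = j then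
            F j (u j ⬝ᵥ v) else f j (u j ⬝ᵥ v)) = (∑ I ∈ FF x b, |D x I| * ∏ j,
            (if ∃ a, I a = j then F j (u j ⬝ᵥ v) else f j (u j ⬝ᵥ v))) / SD x b := by
          rw [Finset.sum_div]
          exact Finset.sum_congr rfl fun I _ => by ring
        rw [h7] at h4
        have h8 := (h6 ▸ h5).trans h4
        rw [le_div_iff₀ h] at h8
        linarith
      · refine mul_nonneg h.le (mul_nonneg (by positivity) ?_)
        exact Finset.prod_nonneg fun j _ => Real.rpow_nonneg (div_nonneg (hq0 j) (by positivity)) _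
      · intro I _
        refine mul_nonneg (abs_nonneg _) (Finset.prod_nonneg fun j _ => ?_)
        split_ifs
        · exact ((hd j).Fpos _).le
        · exact ((hd j).fpos _).le
    have hmeas : ∀ I : Fin m → Fin N, Measurable fun v : Fin K → ℝ => ENNReal.ofReal |D x I| *
        ∏ j, (if ∃ a, I a = j then tl (fun s => ENNReal.ofReal (f j s)) (u j ⬝ᵥ v) else
          ENNReal.ofReal (f j (u j ⬝ᵥ v))) := by
      intro I
      refine measurable_const.mul (Finset.measurable_prod _ fun j _ => ?_)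
      have hlin : Measurable fun v : Fin K → ℝ => u j ⬝ᵥ v :=
        (Continuous.dotProduct continuous_const continuous_id).measurable
      by_cases hj : ∃ a, I a = j
      · simp only [if_pos hj]
        have e : (fun v : Fin K → ℝ => tl (fun s => ENNReal.ofReal (f j s)) (u j ⬝ᵥ v)) =
            fun v => ENNReal.ofReal (F j (u j ⬝ᵥ v)) := by
          funext v; exact (hd j).tl _
        rw [e]
        have hFc : Continuous (F j) := continuous_iff_continuousAt.mpr fun t =>
          ((hd j).der t).continuousAt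
        exact (ENNReal.continuous_ofReal.comp hFc).measurable.comp hlin
      · simp only [if_neg hj]
        exact (ENNReal.continuous_ofReal.comp (hd j).fcont).measurable.comp hlin
    have h9 := lintegral_mono (μ := (volume : Measure (Fin K → ℝ))) hpt
    rw [lintegral_finsetSum _ (fun I _ => hmeas I), lintegral_const_mul _ (by fun_prop),
      gauss_lint, ← ENNReal.ofReal_mul] at h9
    · have h10 : ∑ I ∈ FF x b, ∫⁻ v : Fin K → ℝ, ENNReal.ofReal |D x I| *
          ∏ j, (if ∃ a, I a = j then tl (fun s => ENNReal.ofReal (f j s)) (u j ⬝ᵥ v) else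
          ENNReal.ofReal (f j (u j ⬝ᵥ v))) ≤ 1 := by
        refine le_trans (le_of_eq ?_) h3
        refine Finset.sum_congr rfl fun I _ => ?_
        rw [lintegral_const_mul']
        exact ENNReal.ofReal_ne_top
      have h11 := h9.trans h10
      rw [← ENNReal.ofReal_one] at h11
      exact (ENNReal.ofReal_le_ofReal_iff zero_le_one).mp h11
    · refine mul_nonneg h.le (mul_nonneg (by positivity) ?_)
      exact Finset.prod_nonneg fun j _ => Real.rpow_nonneg (div_nonneg (hq0 j) (by positivity)) _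
  -- let `ε → 0`
  have hlim : SD x b * (∏ j, kap (q j)) * √(2 * Real.pi) ^ K ≤ 1 := by
    have ht : Tendsto (fun ε : ℝ => SD x b * (Real.exp (-ε) ^ N * ∏ j, kap (q j)) *
        √(2 * Real.pi) ^ K) (𝓝[>] 0) (𝓝 (SD x b * (Real.exp (-0) ^ N * ∏ j, kap (q j)) *
        √(2 * Real.pi) ^ K)) := by
      have hcont : Continuous fun ε : ℝ => SD x b * (Real.exp (-ε) ^ N * ∏ j, kap (q j)) *
        √(2 * Real.pi) ^ K := by fun_prop
      exact hcont.continuousAt.mono_left nhdsWithin_le_nhds
    have h12 := le_of_tendsto ht (by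
      filter_upwards [self_mem_nhdsWithin] with ε hε
      exact key ε hε)
    simpa using h12
  refine le_trans (le_of_eq ?_) hlim
  have h13 : ∏ j, kap (q j) = (∏ j, q j ^ (q j / 2)) / √(2 * Real.pi) ^ K := by
    unfold kap
    have e1 : ∀ j, (q j / (2 * Real.pi)) ^ (q j / 2) = q j ^ (q j / 2) /
        (2 * Real.pi) ^ (q j / 2) := fun j => Real.div_rpow (hq0 j) (by positivity) _
    simp only [e1]
    rw [Finset.prod_div_distrib]
    congr 1
    rw [← Real.rpow_sum_of_pos (by positivity), ← Finset.sum_div, sum_marg hN h,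
      Real.sqrt_eq_rpow, ← Real.rpow_natCast, ← Real.rpow_mul (by positivity)]
    congr 1
    ring
  rw [h13]
  have : √(2 * Real.pi) ^ K ≠ 0 := by positivity
  field_simp

/-- entropy inequality -/
lemma entropy_le {q : Fin N → ℝ} (hq : ∀ j, 0 ≤ q j) (hK : 0 < K) (hs : ∑ j, q j = K) :
    (√((N : ℝ) / K) ^ K)⁻¹ ≤ ∏ j, q j ^ (q j / 2) := by
  have hNpos : 0 < N := by
    rcases Nat.eq_zero_or_pos N with h0 | h0
    · subst h0
      simp at hs
      have : (K:ℝ) = 0 := hs.symm
      norm_cast at this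
      omega
    · exact h0
  have hN' : (0:ℝ) < N := by exact_mod_cast hNpos
  have hK' : (0:ℝ) < K := by exact_mod_cast hK
  have hr : 0 < (N : ℝ) / K := div_pos hN' hK'
  have hterm : ∀ j, Real.exp (-(q j / 2) * Real.log (N / K) + (q j / 2 - K / (2 * N))) ≤
      q j ^ (q j / 2) := by
    intro j
    rcases (hq j).eq_or_lt with h0 | h0
    · rw [← h0]
      simp only [zero_div, neg_zero, zero_mul, zero_sub, zero_add, Real.rpow_zero]
      exact Real.exp_le_one_iff.mpr (by
        have : 0 ≤ (K:ℝ) / (2 * N) := by positivity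
        linarith)
    · rw [Real.rpow_def_of_pos h0]
      apply Real.exp_le_exp.mpr
      have h1 := Real.log_le_sub_one_of_pos (x := K / (N * q j)) (by positivity)
      have h2 : Real.log (K / (N * q j)) = -Real.log (N / K) - Real.log (q j) := by
        rw [Real.log_div (by positivity) (by positivity), Real.log_mul (by positivity) h0.ne',
          Real.log_div (by positivity) (by positivity)]
        ring
      rw [h2] at h1
      have h3 := mul_le_mul_of_nonneg_left h1 (by positivity : 0 ≤ q j / 2)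
      have h4 : q j / 2 * (K / (N * q j) - 1) = K / (2 * N) - q j / 2 := by
        field_simp
      rw [h4] at h3
      linarith
  have h5 : ∏ j, Real.exp (-(q j / 2) * Real.log (N / K) + (q j / 2 - K / (2 * N))) =
      (√((N : ℝ) / K) ^ K)⁻¹ := by
    rw [← Real.exp_sum, Finset.sum_add_distrib, ← Finset.sum_mul, Finset.sum_sub_distrib,
      Finset.sum_neg_distrib, ← Finset.sum_div, hs, Finset.sum_const, Finset.card_univ,
      Fintype.card_fin, nsmul_eq_mul]
    have e : -((K:ℝ) / 2) * Real.log (N / K) + (K / 2 - N * (K / (2 * N))) =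
        -(K * Real.log (√((N : ℝ) / K))) := by
      rw [Real.log_sqrt hr.le]
      field_simp
      ring
    rw [e, Real.exp_neg, Real.exp_nat_mul, Real.exp_log (Real.sqrt_pos.mpr hr)]
  rw [← h5]
  exact Finset.prod_le_prod (fun j _ => (Real.exp_pos _).le) (fun j _ => hterm j)

/-- **The determinant bound.** -/
theorem SD_le' (hN : N = m + K) (hK : 0 < K) {x : Fin N → Fin m → ℝ} {b : Fin N → ℝ} (hx : Fr x)
    (hgen : Gen x b) : SD x b ≤ √((N : ℝ) / K) ^ K := by
  have hSD : 0 ≤ SD x b := Finset.sum_nonneg fun I _ => abs_nonneg _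
  rcases hSD.eq_or_lt with h0 | h0
  · rw [← h0]; positivity
  · have h1 := SD_entropy hN hx hgen h0
    have h2 := entropy_le (marg_nonneg x b) hK (sum_marg hN h0)
    have hN' : 0 < N := by omega
    have h3 : 0 < √((N : ℝ) / K) ^ K := by positivity
    have h4 := mul_le_mul_of_nonneg_left h2 h0.le
    have h5 := h4.trans h1
    rwa [← div_eq_mul_inv, div_le_one h3] at h5

end Pool.Agent.Helper58.FU
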