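import Pool.Agent.Helper58.FU.Main

/-!
# Block configurations: exact volume
-/

set_option autoImplicit false
set_option linter.unusedSectionVars false
set_option linter.unusedSimpArgs false
set_option linter.unusedVariables false

namespace Pool.Agent.Helper58.FU

open Finset Matrix MeasureTheory Filter Pool.Agent.Helper484 Pool.Agent.Y568.FL
open scoped ENNReal Topology

variable {m K N : ℕ}

/-- lower bound for the hull by disjoint simplices -/
theorem vol_ge {x : Fin N → Fin m → ℝ} (hgen : Gen x (fun _ => 1))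
    (h0 : (0 : Fin m → ℝ) ∈ convexHull ℝ (Set.range x)) :
    ENNReal.ofReal (SD x (fun _ => 1) / m.factorial) ≤ volume (convexHull ℝ (Set.range x)) := by
  classical
  have h1 : ∀ I ∈ FF x (fun _ => 1), volume ((Matrix.toLin' (A x I)) ''
      (Pool.Agent.TH984.GBS.Sx m 1)) = ENNReal.ofReal (|D x I| / m.factorial) := by
    intro I _
    rw [Measure.addHaar_image_linearMap, LinearMap.det_toLin',
      Pool.Agent.TH984.GBS.vol_Sx m 1 zero_le_one, ← ENNReal.ofReal_mul (abs_nonneg _)]
    congr 1
    rw [one_pow]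
    show |D x I| * (1 / (m.factorial : ℝ)) = _
    ring
  have hSD : SD x (fun _ => 1) / m.factorial = ∑ I ∈ FF x (fun _ => 1), |D x I| / m.factorial := by
    rw [SD, Finset.sum_div]
  rw [hSD, ENNReal.ofReal_sum_of_nonneg (fun I _ => by positivity), ← Finset.sum_congr rfl h1,
    ← measure_biUnion_finset]
  · refine measure_mono ?_
    refine Set.iUnion₂_subset fun I hI => ?_
    rintro _ ⟨l, ⟨hl0, hl1⟩, rfl⟩
    rw [Matrix.toLin'_apply, A_mulVec]
    have h2 : ∑ a, l a • x (I a) = ∑ a, l a • x (I a) + (1 - ∑ a, l a) • (0 : Fin m → ℝ) := by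
      rw [smul_zero, add_zero]
    rw [h2]
    have h3 := (convex_convexHull ℝ (Set.range x)).sum_mem (t := (univ : Finset (Option (Fin m))))
      (w := fun o => o.elim (1 - ∑ a, l a) l) (z := fun o => o.elim 0 (fun a => x (I a))) ?_ ?_ ?_
    · rw [Fintype.sum_option] at h3
      simp only [Option.elim] at h3
      rw [add_comm]
      exact h3
    · rintro (_ | a) _
      · simp only [Option.elim]; linarith
      · exact (hl0 a).le
    · rw [Fintype.sum_option]
      simp only [Option.elim]
      ring
    · rintro (_ | a) _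
      · exact h0
      · exact subset_convexHull ℝ _ ⟨_, rfl⟩
  · intro I hI J hJ hne
    rw [Function.onFun, Set.disjoint_left]
    rintro _ ⟨l, ⟨hl0, hl1⟩, rfl⟩ ⟨l', ⟨hl0', hl1'⟩, h4⟩
    apply hne
    have hI' := (Finset.mem_filter.mp hI).2
    have hJ' := (Finset.mem_filter.mp hJ).2
    refine eq_of_mem hgen hI' hJ' (y := Matrix.toLin' (A x I) l) ?_ ?_
    · intro a
      rw [Matrix.toLin'_apply, A_mulVec, Lam_sum hI'.2.1]
      exact hl0 a
    · intro a
      rw [← h4, Matrix.toLin'_apply, A_mulVec, Lam_sum hJ'.2.1]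
      exact hl0' a
  · intro I hI
    have hD : D x I ≠ 0 := (Finset.mem_filter.mp hI).2.2.1
    have h5 : (Matrix.toLin' (A x I)) '' (Pool.Agent.TH984.GBS.Sx m 1) =
        (Lam x I) ⁻¹' (Pool.Agent.TH984.GBS.Sx m 1) := by
      ext y
      constructor
      · rintro ⟨l, hl, rfl⟩
        rw [Set.mem_preimage, Matrix.toLin'_apply, A_mulVec, Lam_sum hD]
        exact hl
      · intro hy
        refine ⟨Lam x I y, hy, ?_⟩
        rw [Matrix.toLin'_apply, A_mulVec, sum_Lam hD]
    rw [h5]
    exact (Lam_meas x I) (Pool.Agent.TH984.GBS.meas_Sx m 1)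

section block

variable {x : Fin N → Fin m → ℝ} {p : Fin N → Fin K}

/-- block sizes -/
def bs (p : Fin N → Fin K) (a : Fin K) : ℕ := (univ.filter fun i => p i = a).card

/-- the Gram relations of a block configuration -/
structure Blk (x : Fin N → Fin m → ℝ) (p : Fin N → Fin K) : Prop where
  card : N = m + K
  surj : Function.Surjective p
  gram : ∀ i j, x i ⬝ᵥ x j = (if i = j then 1 else 0) -
    (if p i = p j then ((bs p (p i) : ℕ) : ℝ)⁻¹ else 0)
  sum : ∀ a, ∑ j ∈ univ.filter (fun j => p j = a), x j = 0

lemma Blk.bs_pos (h : Blk x p) (a : Fin K) : 0 < bs p a := by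
  obtain ⟨i, hi⟩ := h.surj a
  exact Finset.card_pos.mpr ⟨i, by simp [hi]⟩

/-- a basis misses exactly one element of each block -/
lemma Blk.miss (h : Blk x p) {I : Fin m → Fin N} (hD : D x I ≠ 0) {j : Fin N}
    (hj : j ∉ Set.range I) {j' : Fin N} (hne : j' ≠ j) (hp : p j' = p j) : j' ∈ Set.range I := by
  classical
  by_contra hj'
  have hinj : Function.Injective I := injective_of_D hD
  -- every block misses an element
  have hm : ∀ a, ∃ i, p i = a ∧ i ∉ Set.range I := by
    intro a
    by_contra hcon
    push Not at hcon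
    have h1 := h.sum a
    have hsub : ∀ j, p j = a → ∃ c, I c = j := fun j hj => hcon j hj
    -- a linear relation
    have h2 : ∑ c, (if p (I c) = a then (1:ℝ) else 0) • x (I c) = 0 := by
      rw [← h1]
      simp only [ite_smul, one_smul, zero_smul]
      rw [← Finset.sum_filter]
      refine Finset.sum_bij (fun c _ => I c) ?_ ?_ ?_ ?_
      · intro c hc
        simpa using hc
      · intro c _ c' _ hcc
        exact hinj hcc
      · intro j hj
        obtain ⟨c, hc⟩ := hsub j (by simpa using hj)
        exact ⟨c, by simpa [hc] using hj, hc⟩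
      · intro c _
        rfl
    have h3 := Lam_sum hD (fun c => if p (I c) = a then (1:ℝ) else 0)
    rw [h2] at h3
    have h4 : Lam x I 0 = 0 := by unfold Lam; simp
    rw [h4] at h3
    obtain ⟨i, hi⟩ := h.surj a
    obtain ⟨c, hc⟩ := hsub i hi
    have h5 := congrFun h3 c
    simp only [Pi.zero_apply] at h5
    rw [hc, if_pos hi] at h5
    norm_num at h5
  choose f hf hfI using hm
  -- now count
  set S : Finset (Fin N) := (univ.image I)ᶜ with hS
  have hScard : S.card = K := by
    rw [hS, Finset.card_compl, Finset.card_image_of_injective _ hinj]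
    simp [h.card]
  have hjS : j ∈ S := by
    rw [hS, Finset.mem_compl]
    intro hc
    obtain ⟨c, -, hc⟩ := Finset.mem_image.mp hc
    exact hj ⟨c, hc⟩
  have hjS' : j' ∈ S := by
    rw [hS, Finset.mem_compl]
    intro hc
    obtain ⟨c, -, hc⟩ := Finset.mem_image.mp hc
    exact hj' ⟨c, hc⟩
  have hsurj : S.image p = univ := by
    ext a
    simp only [Finset.mem_image, mem_univ, iff_true]
    refine ⟨f a, ?_, hf a⟩
    rw [hS, Finset.mem_compl]
    intro hc
    obtain ⟨c, -, hc⟩ := Finset.mem_image.mp hc
    exact hfI a ⟨c, hc⟩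
  have hinjS : Set.InjOn p S := by
    rw [← Finset.card_image_iff, hsurj, hScard]
    simp
  exact hne (hinjS hjS' hjS hp)

lemma Blk.exists_miss (h : Blk x p) {I : Fin m → Fin N} (hD : D x I ≠ 0) (a : Fin K) :
    ∃ i, p i = a ∧ i ∉ Set.range I := by
  classical
  by_contra hcon
  push Not at hcon
  have hinj : Function.Injective I := injective_of_D hD
  set S : Finset (Fin N) := (univ.image I)ᶜ with hS
  have hScard : S.card = K := by
    rw [hS, Finset.card_compl, Finset.card_image_of_injective _ hinj]
    simp [h.card]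
  have hinjS : Set.InjOn p S := by
    intro j hj j' hj' hpp
    by_contra hne
    have hjr : j ∉ Set.range I := by
      rintro ⟨c, hc⟩
      rw [hS, Finset.mem_coe, Finset.mem_compl] at hj
      exact hj (Finset.mem_image.mpr ⟨c, mem_univ _, hc⟩)
    have hjr' : j' ∈ Set.range I := h.miss hD hjr (Ne.symm hne) hpp.symm
    obtain ⟨c, hc⟩ := hjr'
    rw [hS, Finset.mem_coe, Finset.mem_compl] at hj'
    exact hj' (Finset.mem_image.mpr ⟨c, mem_univ _, hc⟩)
  have hall : S.image p = univ := by
    apply Finset.eq_univ_of_card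
    rw [Finset.card_image_of_injOn hinjS, hScard]
    simp
  have ha : a ∈ S.image p := by rw [hall]; exact mem_univ a
  obtain ⟨j, hj, hja⟩ := Finset.mem_image.mp ha
  obtain ⟨c, hc⟩ := hcon j hja
  rw [hS, Finset.mem_compl] at hj
  exact hj (Finset.mem_image.mpr ⟨c, mem_univ _, hc⟩)

/-- the value of a missing element at `Y` -/
lemma Blk.val (h : Blk x p) {I : Fin m → Fin N} (hD : D x I ≠ 0) {j : Fin N}
    (hj : j ∉ Set.range I) : x j ⬝ᵥ Y x (fun _ => 1) I = 1 - (bs p (p j) : ℝ) := by
  classical
  have h1 := h.sum (p j)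
  have hjm : j ∈ univ.filter (fun i => p i = p j) := by simp
  rw [← Finset.add_sum_erase _ _ hjm] at h1
  have h2 : x j = -∑ i ∈ (univ.filter (fun i => p i = p j)).erase j, x i :=
    eq_neg_of_add_eq_zero_left h1
  rw [h2, neg_dotProduct, sum_dotProduct]
  have h3 : ∀ i ∈ (univ.filter (fun i => p i = p j)).erase j,
      x i ⬝ᵥ Y x (fun _ => 1) I = 1 := by
    intro i hi
    have hi1 := Finset.ne_of_mem_erase hi
    have hi2 : p i = p j := by
      have := Finset.mem_of_mem_erase hi
      simpa using this
    obtain ⟨c, hc⟩ := h.miss hD hj hi1 hi2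
    rw [← hc, dot_Y hD]
  rw [Finset.sum_congr rfl h3, Finset.sum_const, Finset.card_erase_of_mem hjm, nsmul_eq_mul,
    mul_one]
  have h4 : 1 ≤ (univ.filter (fun i => p i = p j)).card := Finset.card_pos.mpr ⟨j, hjm⟩
  rw [Nat.cast_sub h4]
  unfold bs
  push_cast
  ring

lemma Blk.gen (h : Blk x p) : Gen x (fun _ => 1) := by
  intro I hD j hj
  rw [h.val hD hj]
  have h1 : (0:ℝ) < bs p (p j) := by exact_mod_cast h.bs_pos (p j)
  intro h2
  linarith

lemma Blk.feas (h : Blk x p) {I : Fin m → Fin N} (hD : D x I ≠ 0) (j : Fin N) :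
    x j ⬝ᵥ Y x (fun _ => 1) I ≤ 1 := by
  by_cases hj : j ∈ Set.range I
  · obtain ⟨c, rfl⟩ := hj
    exact (dot_Y hD _ c).le
  · rw [h.val hD hj]
    have h1 : (0:ℝ) ≤ bs p (p j) := by positivity
    linarith

/-- the determinant of a set which misses exactly one element of each block -/
lemma Blk.det (h : Blk x p) {I : Fin m → Fin N} (hinj : Function.Injective I)
    (hI : ∀ a, (univ.filter fun c => p (I c) = a).card + 1 = bs p a) :
    (D x I) ^ 2 = ∏ a, ((bs p a : ℕ) : ℝ)⁻¹ := by
  classical
  have h1 : (D x I) ^ 2 = ((A x I)ᵀ * A x I).det := by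
    rw [Matrix.det_mul, Matrix.det_transpose, sq]
    rfl
  set V : Matrix (Fin m) (Fin K) ℝ := Matrix.of fun c a =>
    if p (I c) = a then (√(bs p a : ℝ))⁻¹ else 0 with hV
  have h2 : (A x I)ᵀ * A x I = 1 - V * Vᵀ := by
    ext c d
    rw [Matrix.mul_apply, Matrix.sub_apply, Matrix.one_apply, Matrix.mul_apply]
    have h3 := h.gram (I c) (I d)
    simp only [dotProduct] at h3
    simp only [A, Matrix.transpose_apply, Matrix.of_apply, h3, hV]
    congr 1
    · by_cases hcd : c = d
      · subst hcd; simp
      · rw [if_neg hcd, if_neg (fun h => hcd (hinj h))]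
    · by_cases hp : p (I c) = p (I d)
      · rw [if_pos hp, Finset.sum_eq_single (p (I c))]
        · rw [if_pos rfl, if_pos hp.symm, ← mul_inv, Real.mul_self_sqrt (by positivity)]
        · intro a _ ha
          rw [if_neg (Ne.symm ha), zero_mul]
        · intro hn; exact absurd (mem_univ _) hn
      · rw [if_neg hp]
        symm
        apply Finset.sum_eq_zero
        intro a _
        by_cases h4 : p (I c) = a
        · rw [if_neg (c := p (I d) = a), mul_zero]
          intro h5
          exact hp (h4.trans h5.symm)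
        · rw [if_neg h4, zero_mul]
  have h3 : (1 : Matrix (Fin K) (Fin K) ℝ) - Vᵀ * V =
      Matrix.diagonal fun a => ((bs p a : ℕ) : ℝ)⁻¹ := by
    ext a d
    rw [Matrix.sub_apply, Matrix.one_apply, Matrix.mul_apply, Matrix.diagonal_apply]
    simp only [hV, Matrix.transpose_apply, Matrix.of_apply]
    by_cases had : a = d
    · subst had
      rw [if_pos rfl, if_pos rfl]
      have h4 : ∀ c, (if p (I c) = a then (√(bs p a : ℝ))⁻¹ else 0) *
          (if p (I c) = a then (√(bs p a : ℝ))⁻¹ else 0) =
          if p (I c) = a then ((bs p a : ℕ) : ℝ)⁻¹ else 0 := by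
        intro c
        split_ifs
        · rw [← mul_inv, Real.mul_self_sqrt (by positivity)]
        · ring
      rw [Finset.sum_congr rfl fun c _ => h4 c, ← Finset.sum_filter, Finset.sum_const,
        nsmul_eq_mul]
      have h5 : ((univ.filter fun c => p (I c) = a).card : ℝ) = bs p a - 1 := by
        rw [← hI a]; push_cast; ring
      rw [h5]
      have h6 : ((bs p a : ℕ) : ℝ) ≠ 0 := by
        have := h.bs_pos a
        positivity
      field_simp
      ring
    · rw [if_neg had, if_neg had, Finset.sum_eq_zero, sub_zero]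
      intro c _
      by_cases h4 : p (I c) = a
      · rw [if_neg (c := p (I c) = d), mul_zero]
        intro h5
        exact had (h4.symm.trans h5)
      · rw [if_neg h4, zero_mul]
  rw [h1, h2, Matrix.det_one_sub_mul_comm, h3, Matrix.det_diagonal]

end block

end Pool.Agent.Helper58.FU
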