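import Pool.Agent.Helper58.FU.Decomp
import Pool.Graph.R_seed8.Helper7.Simplex.Gauss

/-!
# Densities `f` with tails `F` such that `f ^ p * F ^ (1 - p)` is a Gaussian
-/

set_option autoImplicit false
set_option linter.unusedSectionVars false
set_option linter.unusedSimpArgs false
set_option linter.unusedVariables false

namespace Pool.Agent.Helper58.FU

open Finset Matrix MeasureTheory Filter Pool.Agent.Helper7.Simplex
open scoped ENNReal Topology

/-- `f` is a density with tail `F` -/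
structure Dens (f F : ℝ → ℝ) : Prop where
  fpos : ∀ t, 0 < f t
  Fpos : ∀ t, 0 < F t
  Fle : ∀ t, F t ≤ 1
  fcont : Continuous f
  der : ∀ t, HasDerivAt F (-f t) t
  lim : Tendsto F atTop (𝓝 0)

lemma Dens.tail {f F : ℝ → ℝ} (h : Dens f F) (t : ℝ) :
    ∫⁻ s in Set.Ioi t, ENNReal.ofReal (f s) = ENNReal.ofReal (F t) := by
  have hn : ∀ x ∈ Set.Ioi t, -f x ≤ 0 := fun x _ => neg_nonpos.mpr (h.fpos x).le
  have h1 : IntegrableOn (fun x => -f x) (Set.Ioi t) :=
    integrableOn_Ioi_deriv_of_nonpos' (fun x _ => h.der x) hn h.lim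
  have h2 := integral_Ioi_of_hasDerivAt_of_nonpos' (fun x _ => h.der x) hn h.lim
  have h3 : IntegrableOn f (Set.Ioi t) := by
    have := h1.neg
    simpa using this
  rw [← ofReal_integral_eq_lintegral_ofReal h3 (Eventually.of_forall fun x => (h.fpos x).le)]
  congr 1
  rw [integral_neg, zero_sub, neg_inj] at h2
  exact h2

lemma Dens.tl {f F : ℝ → ℝ} (h : Dens f F) (t : ℝ) :
    tl (fun s => ENNReal.ofReal (f s)) t = ENNReal.ofReal (F t) := by
  rw [← h.tail t]
  unfold FU.tl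
  have h1 := (measurePreserving_add_left (volume : Measure ℝ) t).setLIntegral_comp_preimage_emb
    (MeasurableEquiv.addLeft t).measurableEmbedding (fun s => ENNReal.ofReal (f s)) (Set.Ioi t)
  rw [← h1]
  have h2 : (fun x => t + x) ⁻¹' Set.Ioi t = Set.Ioi 0 := by
    ext x; simp
  rw [h2]

lemma Dens.int {f F : ℝ → ℝ} (h : Dens f F) : ∫⁻ s, ENNReal.ofReal (f s) ≤ 1 := by
  have h1 : AECover (volume : Measure ℝ) atTop fun n : ℕ => Set.Ioi (-(n:ℝ)) :=
    aecover_Ioi (tendsto_neg_atTop_atBot.comp tendsto_natCast_atTop_atTop)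
  have h2 := h1.lintegral_tendsto_of_nat (f := fun s => ENNReal.ofReal (f s))
    (ENNReal.continuous_ofReal.comp h.fcont).measurable.aemeasurable
  refine le_of_tendsto' h2 fun n => ?_
  rw [h.tail]
  rw [← ENNReal.ofReal_one]
  exact ENNReal.ofReal_le_ofReal (h.Fle _)

/-- the constant of a marginal `p` -/
noncomputable def kap (p : ℝ) : ℝ := (p / (2 * Real.pi)) ^ (p / 2)

lemma fam_zero {ε : ℝ} (hε : 0 < ε) : ∃ f F : ℝ → ℝ, Dens f F ∧
    ∀ t, Real.exp (-ε) * Real.exp (-t ^ 2 / 2) ≤ F t := by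
  set δ : ℝ := (Real.exp ε - 1) * Real.exp (-(1/2)) with hδ
  have hδ0 : 0 < δ := mul_pos (by linarith [Real.add_one_le_exp ε]) (Real.exp_pos _)
  have hd : ∀ t : ℝ, 0 < 1 + δ * Real.exp t := fun t => by positivity
  refine ⟨fun t => δ * Real.exp t / (1 + δ * Real.exp t) ^ 2, fun t => (1 + δ * Real.exp t)⁻¹,
    ⟨?_, ?_, ?_, ?_, ?_, ?_⟩, ?_⟩
  · intro t; have := hd t; positivity
  · intro t; exact inv_pos.mpr (hd t)
  · intro t
    apply inv_le_one_of_one_le₀
    have : 0 < δ * Real.exp t := by positivity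
    linarith
  · exact Continuous.div (by fun_prop) (by fun_prop) (fun t => (pow_pos (hd t) 2).ne')
  · intro t
    have h1 : HasDerivAt (fun t => 1 + δ * Real.exp t) (δ * Real.exp t) t :=
      ((Real.hasDerivAt_exp t).const_mul δ).const_add 1
    exact (h1.inv (hd t).ne').congr_deriv (neg_div _ _)
  · have h1 : Tendsto (fun t : ℝ => 1 + δ * Real.exp t) atTop atTop :=
      tendsto_atTop_add_const_left _ _ (Real.tendsto_exp_atTop.const_mul_atTop hδ0)
    exact h1.inv_tendsto_atTop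
  · intro t
    rw [← Real.exp_add, le_inv_comm₀ (Real.exp_pos _) (hd t), ← Real.exp_neg]
    have e1 : -(-ε + -t ^ 2 / 2) = ε + t ^ 2 / 2 := by ring
    rw [e1, Real.exp_add]
    have hX : 1 ≤ Real.exp (t ^ 2 / 2) := Real.one_le_exp (by positivity)
    have hY : Real.exp (-(1/2)) * Real.exp t ≤ Real.exp (t ^ 2 / 2) := by
      rw [← Real.exp_add]
      apply Real.exp_le_exp.mpr
      nlinarith [sq_nonneg (t - 1)]
    have hE : 0 < Real.exp ε - 1 := by linarith [Real.add_one_le_exp ε]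
    have h3 : δ * Real.exp t ≤ (Real.exp ε - 1) * Real.exp (t ^ 2 / 2) := by
      rw [hδ, mul_assoc]
      exact mul_le_mul_of_nonneg_left hY hE.le
    nlinarith

lemma fam_pos {p : ℝ} (hp : 0 < p) (hp1 : p ≤ 1) : ∃ f F : ℝ → ℝ, Dens f F ∧
    ∀ t, f t ^ p * F t ^ (1 - p) = kap p * Real.exp (-t ^ 2 / 2) := by
  have hsp : 0 < √p := Real.sqrt_pos.mpr hp
  have hT : ∀ u, 0 < gtail u := J7431.gtail_pos
  have hT1 : ∀ u, gtail u < 1 := fun u => (J7431.G_basic u).2.1
  have hg : ∀ u, 0 < gpdf u := J7431.gpdf_pos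
  refine ⟨fun t => √p * gpdf (t / √p) * gtail (t / √p) ^ (p - 1), fun t => gtail (t / √p) ^ p,
    ⟨?_, ?_, ?_, ?_, ?_, ?_⟩, ?_⟩
  · intro t
    exact mul_pos (mul_pos hsp (hg _)) (Real.rpow_pos_of_pos (hT _) _)
  · intro t; exact Real.rpow_pos_of_pos (hT _) _
  · intro t
    exact Real.rpow_le_one (hT _).le (hT1 _).le hp.le
  · have hc : Continuous gtail := continuous_iff_continuousAt.mpr fun u =>
      (J7431.gtail_deriv u).continuousAt
    have hgc : Continuous gpdf := J7431.gpdf_cont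
    refine (continuous_const.mul (hgc.comp (by fun_prop))).mul ?_
    exact (hc.comp (by fun_prop)).rpow_const fun t => Or.inl (hT _).ne'
  · intro t
    have h1 : HasDerivAt (fun t : ℝ => t / √p) (1 / √p) t := (hasDerivAt_id t).div_const _
    have h2 := (J7431.gtail_deriv (t / √p)).comp t h1
    have h3 := h2.rpow_const (p := p) (Or.inl (hT _).ne')
    refine h3.congr_deriv ?_
    have e : √p * √p = p := Real.mul_self_sqrt hp.le
    simp only [Function.comp]
    field_simp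
    rw [Real.sq_sqrt hp.le]
    ring
  · have h1 : Tendsto (fun t : ℝ => gtail (t / √p)) atTop (𝓝 0) :=
      (J7432.gtail_lim J7431.G_basic).comp (tendsto_id.atTop_div_const hsp)
    have h2 := h1.rpow_const (p := p) (Or.inr hp.le)
    rwa [Real.zero_rpow hp.ne'] at h2
  · intro t
    simp only
    have h0 : 0 < √p * gpdf (t / √p) := mul_pos hsp (hg _)
    rw [Real.mul_rpow h0.le (Real.rpow_nonneg (hT _).le _), ← Real.rpow_mul (hT _).le,
      ← Real.rpow_mul (hT _).le, mul_assoc, ← Real.rpow_add (hT _)]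
    have e1 : (p - 1) * p + p * (1 - p) = 0 := by ring
    rw [e1, Real.rpow_zero, mul_one]
    unfold gpdf kap
    have e2 : √p * ((√(2 * Real.pi))⁻¹ * Real.exp (-(t / √p) ^ 2 / 2)) =
        √(p / (2 * Real.pi)) * Real.exp (-(t ^ 2 / p) / 2) := by
      rw [Real.sqrt_div hp.le, div_pow, Real.sq_sqrt hp.le]
      ring
    rw [e2, Real.mul_rpow (Real.sqrt_nonneg _) (Real.exp_pos _).le, ← Real.exp_mul,
      Real.sqrt_eq_rpow, ← Real.rpow_mul (by positivity)]
    congr 2
    · ring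
    · field_simp

lemma kap_zero : kap 0 = 1 := by simp [kap]

lemma fam {p : ℝ} (hp : 0 ≤ p) (hp1 : p ≤ 1) {ε : ℝ} (hε : 0 < ε) : ∃ f F : ℝ → ℝ, Dens f F ∧
    ∀ t, Real.exp (-ε) * kap p * Real.exp (-t ^ 2 / 2) ≤ f t ^ p * F t ^ (1 - p) := by
  rcases hp.eq_or_lt with h0 | h0
  · subst h0
    obtain ⟨f, F, h1, h2⟩ := fam_zero hε
    refine ⟨f, F, h1, fun t => ?_⟩
    rw [kap_zero, mul_one, Real.rpow_zero, one_mul, sub_zero, Real.rpow_one]
    exact h2 t
  · obtain ⟨f, F, h1, h2⟩ := fam_pos h0 hp1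
    refine ⟨f, F, h1, fun t => ?_⟩
    rw [h2 t, mul_assoc]
    have h3 : 0 ≤ kap p * Real.exp (-t ^ 2 / 2) :=
      mul_nonneg (Real.rpow_nonneg (by positivity) _) (Real.exp_pos _).le
    have h4 : Real.exp (-ε) ≤ 1 := Real.exp_le_one_iff.mpr (by linarith)
    nlinarith

end Pool.Agent.Helper58.FU
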